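import Mathlib
import Pool.Agent.Helper49.FL.Def
import Pool.Agent.Helper18.WK.Defs

/-!
Project OZ (MP_7e0861_pr).  Chains and their paths (interface between the walk part and the assembly).

A chain started at the height `x` is a list of pieces `(l, z)`, `l` the length of the piece and `z` the new height.
`hgt x c` is the piecewise linear interpolation of the heights of the cuts, started at the abscissa `0`, constant
before the first cut and after the last one.
-/

open scoped ENNReal

namespace Pool.Agent.Helper49.OZ

open Pool.Agent.Helper49.FL Pool.Agent.Helper18.WK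

/-- The total length. -/
def len : List (ℕ × ℤ) → ℕ
  | [] => 0
  | p :: c => p.1 + len c

/-- The final height. -/
def fin (x : ℤ) : List (ℕ × ℤ) → ℤ
  | [] => x
  | p :: c => fin p.2 c

/-- The mass of a chain. -/
noncomputable def wt (K : Ker) (x : ℤ) : List (ℕ × ℤ) → ℝ≥0∞
  | [] => 1
  | p :: c => K x p.1 p.2 * wt K p.2 c

/-- The interpolated height at the abscissa `t`. -/
noncomputable def hgt (x : ℤ) : List (ℕ × ℤ) → ℝ → ℝ
  | [], _ => x
  | p :: c, t => hgt p.2 c (t - p.1) + ((x : ℝ) - p.2) * max 0 (min 1 (1 - t / p.1))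

theorem hgt_cont (x : ℤ) (c : List (ℕ × ℤ)) : Continuous (hgt x c) := by
  induction c generalizing x with
  | nil => exact (continuous_const : Continuous fun _ : ℝ => (x : ℝ))
  | cons p c ih =>
    have h := ih p.2
    have h2 : Continuous fun t : ℝ =>
        hgt p.2 c (t - p.1) + ((x : ℝ) - p.2) * max 0 (min 1 (1 - t / p.1)) := by
      fun_prop
    exact h2

/-- The rescaled path on `[-1, 1]` of the chain started at the point `(u, x)`; the abscissas `0..2n` correspond to
`[-1, 1]`. -/
noncomputable def cpath (n : ℕ) (u x : ℤ) (c : List (ℕ × ℤ)) : C(TI, ℝ) where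
  toFun s := hgt x c (n * ((s : ℝ) + 1) - u) / Real.sqrt n
  continuous_toFun := by
    have h := hgt_cont x c
    fun_prop

open Classical in
/-- Sum over the chains from height `x` to height `y` of total length `m`. -/
noncomputable def csum (K : Ker) (m : ℕ) (x y : ℤ) (Φ : List (ℕ × ℤ) → ℝ≥0∞) : ℝ≥0∞ :=
  ∑' c : List (ℕ × ℤ), if (∀ p ∈ c, 1 ≤ p.1) ∧ len c = m ∧ fin x c = y then wt K x c * Φ c else 0

end Pool.Agent.Helper49.OZ
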