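import Mathlib
import Pool.Agent.Helper49.OZ.Chain
import Pool.Agent.Helper83.OZ.Cut

/-!
Block AS-4: the interpolated heights of a chain of cone points.

* `hgt_neg`, `hgt_after`, `hgt_lip`: induction on the chain; in `hgt (p :: c)` the function
  `max 0 (min 1 (1 - t / p.1))` is `1` for `t ≤ 0`, `0` for `t ≥ p.1`, so for `0 ≤ t ≤ p.1` the value is `x + (p.2 - x) t / p.1`
  and for `t ≥ p.1` it is `hgt p.2 c (t - p.1)`; slopes at most `8` (`Steep`).
* `steep_of_cp`: consecutive cone points are in the forward cone of each other (`cp_Y`).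
* `along_close`: induction on the chain. A vertex `y` of `V` left of the start is in the backward cone of the start;
  a vertex in a column between two consecutive cone points `t`, `t'` satisfies `Y (y - t)`, `Y (t' - y)` (`CP`; in the
  column of a cone point there is no other vertex), so `y.2`, `t.2`, `t'.2` and the interpolated height differ by at
  most `8 ℓ` each; a vertex right of the end is in the forward cone of the end.
-/

namespace Pool.Agent.Helper49.OZ

open Pool.Helper17.OZ (Y CP)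
open Pool.Helper83.OZ (cp_Y cp_col)

/-- The slopes are at most `8`. -/
def Steep (x : ℤ) : List (ℕ × ℤ) → Prop
  | [] => True
  | p :: c => |p.2 - x| ≤ 8 * p.1 ∧ Steep p.2 c

/-- The points of the chain started at `t`. -/
def pts (t : ℤ × ℤ) : List (ℕ × ℤ) → List (ℤ × ℤ)
  | [] => [t]
  | p :: c => t :: pts (t.1 + p.1, p.2) c

theorem pts_end (t : ℤ × ℤ) (c : List (ℕ × ℤ)) : (t.1 + len c, fin t.2 c) ∈ pts t c := by
  induction c generalizing t with
  | nil =>
    unfold pts len fin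
    simp
  | cons p c ih =>
    have h := ih (t.1 + p.1, p.2)
    unfold pts len fin
    have h2 : (t.1 + ((p.1 + len c : ℕ) : ℤ), fin p.2 c) = (t.1 + p.1 + len c, fin p.2 c) := by
      rw [Nat.cast_add, add_assoc]
    rw [h2]
    exact List.mem_cons_of_mem _ h

theorem hgt_neg {x : ℤ} {c : List (ℕ × ℤ)} (hc : ∀ p ∈ c, 1 ≤ p.1) {t : ℝ} (ht : t ≤ 0) :
    hgt x c t = x := by
  induction c generalizing x t with
  | nil => rfl
  | cons p c ih =>
    have h1 : (0 : ℝ) < p.1 := by exact_mod_cast hc p List.mem_cons_self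
    have h2 := ih (x := p.2) (t := t - p.1) (fun q hq => hc q (List.mem_cons_of_mem _ hq))
      (by linarith)
    have h3 : (1 : ℝ) ≤ 1 - t / p.1 := by
      have := div_nonpos_of_nonpos_of_nonneg ht h1.le
      linarith
    change hgt p.2 c (t - p.1) + ((x : ℝ) - p.2) * max 0 (min 1 (1 - t / p.1)) = x
    rw [h2, min_eq_left h3, max_eq_right zero_le_one]
    ring

/-- beyond the first cut -/
private theorem hgt_cons_ge53 {x : ℤ} {p : ℕ × ℤ} {c : List (ℕ × ℤ)} (hp : 1 ≤ p.1) {t : ℝ}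
    (ht : (p.1 : ℝ) ≤ t) : hgt x (p :: c) t = hgt p.2 c (t - p.1) := by
  have h1 : (0 : ℝ) < p.1 := by exact_mod_cast hp
  have h3 : 1 - t / p.1 ≤ 0 := by
    have := (one_le_div h1).2 ht
    linarith
  change hgt p.2 c (t - p.1) + ((x : ℝ) - p.2) * max 0 (min 1 (1 - t / p.1)) = _
  rw [max_eq_left ((min_le_right _ _).trans h3), mul_zero, add_zero]

/-- before the first cut -/
private theorem hgt_cons_le53 {x : ℤ} {p : ℕ × ℤ} {c : List (ℕ × ℤ)}
    (hc : ∀ p ∈ c, 1 ≤ p.1) {t : ℝ} (ht : t ≤ p.1) :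
    hgt x (p :: c) t = p.2 + ((x : ℝ) - p.2) * max 0 (min 1 (1 - t / p.1)) := by
  change hgt p.2 c (t - p.1) + ((x : ℝ) - p.2) * max 0 (min 1 (1 - t / p.1)) = _
  rw [hgt_neg hc (by linarith)]

theorem hgt_after {x : ℤ} {c : List (ℕ × ℤ)} (hc : ∀ p ∈ c, 1 ≤ p.1) {t : ℝ} (ht : len c ≤ t) :
    hgt x c t = fin x c := by
  induction c generalizing x t with
  | nil => rfl
  | cons p c ih =>
    have h0 : ((p.1 + len c : ℕ) : ℝ) ≤ t := ht
    rw [Nat.cast_add] at h0
    have h1 : (0 : ℝ) ≤ len c := Nat.cast_nonneg _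
    rw [hgt_cons_ge53 (hc p List.mem_cons_self) (by linarith)]
    exact ih (x := p.2) (t := t - p.1) (fun q hq => hc q (List.mem_cons_of_mem _ hq)) (by linarith)

private theorem clamp_lip53 (a b : ℝ) :
    |max 0 (min 1 a) - max 0 (min 1 b)| ≤ |a - b| := by
  have h1 : |max 0 (min 1 a) - max 0 (min 1 b)| ≤ |min 1 a - min 1 b| := by
    have h := abs_max_sub_max_le_max 0 (min 1 a) 0 (min 1 b)
    rw [sub_self, abs_zero] at h
    exact h.trans_eq (max_eq_right (abs_nonneg _))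
  have h2 : |min 1 a - min 1 b| ≤ |a - b| := by
    have h := abs_min_sub_min_le_max 1 a 1 b
    rw [sub_self, abs_zero] at h
    exact h.trans_eq (max_eq_right (abs_nonneg _))
  exact h1.trans h2

private theorem lip_first53 {x : ℤ} {p : ℕ × ℤ} {c : List (ℕ × ℤ)} (hp : 1 ≤ p.1)
    (hc : ∀ p ∈ c, 1 ≤ p.1) (hs : |p.2 - x| ≤ 8 * (p.1 : ℤ)) {s t : ℝ} (hs1 : s ≤ p.1)
    (ht1 : t ≤ p.1) : |hgt x (p :: c) s - hgt x (p :: c) t| ≤ 8 * |s - t| := by
  have h1 : (0 : ℝ) < p.1 := by exact_mod_cast hp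
  have h2 : |(x : ℝ) - p.2| ≤ 8 * p.1 := by
    rw [abs_sub_comm]
    exact_mod_cast hs
  rw [hgt_cons_le53 hc hs1, hgt_cons_le53 hc ht1]
  have h3 : (p.2 : ℝ) + ((x : ℝ) - p.2) * max 0 (min 1 (1 - s / p.1)) -
      (p.2 + ((x : ℝ) - p.2) * max 0 (min 1 (1 - t / p.1))) =
      ((x : ℝ) - p.2) * (max 0 (min 1 (1 - s / p.1)) - max 0 (min 1 (1 - t / p.1))) := by ring
  rw [h3, abs_mul]
  have h4 := clamp_lip53 (1 - s / p.1) (1 - t / p.1)
  have h5 : |1 - s / p.1 - (1 - t / p.1)| = |s - t| / p.1 := by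
    have : 1 - s / (p.1 : ℝ) - (1 - t / p.1) = -((s - t) / p.1) := by ring
    rw [this, abs_neg, abs_div, abs_of_pos h1]
  rw [h5] at h4
  calc |(x : ℝ) - p.2| * |max 0 (min 1 (1 - s / p.1)) - max 0 (min 1 (1 - t / p.1))|
      ≤ 8 * p.1 * (|s - t| / p.1) := mul_le_mul h2 h4 (abs_nonneg _) (by positivity)
    _ = 8 * |s - t| := by
        field_simp

private theorem hgt_lip_le53 {x : ℤ} {c : List (ℕ × ℤ)} (hc : ∀ p ∈ c, 1 ≤ p.1)
    (hs : Steep x c) {s t : ℝ} (hst : s ≤ t) :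
    |hgt x c s - hgt x c t| ≤ 8 * (t - s) := by
  induction c generalizing x s t with
  | nil =>
    change |(x : ℝ) - x| ≤ _
    rw [sub_self, abs_zero]
    linarith
  | cons p c ih =>
    have hp := hc p List.mem_cons_self
    have hc' : ∀ q ∈ c, 1 ≤ q.1 := fun q hq => hc q (List.mem_cons_of_mem _ hq)
    obtain ⟨hs1, hs2⟩ : |p.2 - x| ≤ 8 * (p.1 : ℤ) ∧ Steep p.2 c := hs
    have hlow : ∀ a b : ℝ, a ≤ b → b ≤ p.1 →
        |hgt x (p :: c) a - hgt x (p :: c) b| ≤ 8 * (b - a) := by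
      intro a b hab hb
      have h := lip_first53 (x := x) hp hc' hs1 (hab.trans hb) hb
      rwa [abs_sub_comm a b, abs_of_nonneg (sub_nonneg.2 hab)] at h
    have hhigh : ∀ a b : ℝ, a ≤ b → (p.1 : ℝ) ≤ a →
        |hgt x (p :: c) a - hgt x (p :: c) b| ≤ 8 * (b - a) := by
      intro a b hab ha
      rw [hgt_cons_ge53 hp ha, hgt_cons_ge53 hp (ha.trans hab)]
      have h := ih (x := p.2) (s := a - p.1) (t := b - p.1) hc' hs2 (by linarith)
      linarith
    rcases le_total t p.1 with h1 | h1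
    · exact hlow s t hst h1
    · rcases le_total (p.1 : ℝ) s with h2 | h2
      · exact hhigh s t hst h2
      · have h3 := hlow s p.1 h2 le_rfl
        have h4 := hhigh p.1 t h1 le_rfl
        have h5 := abs_sub_le (hgt x (p :: c) s) (hgt x (p :: c) p.1) (hgt x (p :: c) t)
        linarith

theorem hgt_lip {x : ℤ} {c : List (ℕ × ℤ)} (hc : ∀ p ∈ c, 1 ≤ p.1) (hs : Steep x c) (s t : ℝ) :
    |hgt x c s - hgt x c t| ≤ 8 * |s - t| := by
  rcases le_total s t with h | h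
  · rw [abs_sub_comm s t, abs_of_nonneg (sub_nonneg.2 h)]
    exact hgt_lip_le53 hc hs h
  · rw [abs_sub_comm (hgt x c s), abs_of_nonneg (sub_nonneg.2 h)]
    exact hgt_lip_le53 hc hs h

theorem steep_of_cp {V : Finset (ℤ × ℤ)} {t : ℤ × ℤ} {c : List (ℕ × ℤ)} (hc : ∀ p ∈ c, 1 ≤ p.1)
    (h : ∀ s ∈ pts t c, CP V s) : Steep t.2 c := by
  induction c generalizing t with
  | nil => trivial
  | cons p c ih =>
    have hmem : ∀ (u : ℤ × ℤ) (d : List (ℕ × ℤ)), u ∈ pts u d := by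
      intro u d
      cases d with
      | nil => exact List.mem_singleton.2 rfl
      | cons q d => exact List.mem_cons_self
    have h1 := h t (hmem t _)
    have h2 := h (t.1 + p.1, p.2) (List.mem_cons_of_mem _ (hmem _ c))
    have h3 := cp_Y h1 h2 (by simp)
    refine ⟨?_, ih (t := (t.1 + p.1, p.2)) (fun q hq => hc q (List.mem_cons_of_mem _ hq))
      fun s hs => h s (List.mem_cons_of_mem _ hs)⟩
    unfold Y at h3
    simp only [Prod.fst_sub, Prod.snd_sub, add_sub_cancel_left] at h3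
    exact h3

/-- a vertex and a cone point -/
private theorem cone53 {V : Finset (ℤ × ℤ)} {t y : ℤ × ℤ} (h : CP V t) (hy : y ∈ V) :
    |(y.2 : ℝ) - t.2| ≤ 8 * max 0 ((t.1 : ℝ) - y.1) + 8 * max 0 ((y.1 : ℝ) - t.1) := by
  have h1 : (0 : ℝ) ≤ max 0 ((t.1 : ℝ) - y.1) := le_max_left _ _
  have h2 : (0 : ℝ) ≤ max 0 ((y.1 : ℝ) - t.1) := le_max_left _ _
  rcases h.2 y hy with h3 | h3
  · have h4 : |(y.2 : ℝ) - t.2| ≤ 8 * ((y.1 : ℝ) - t.1) := by
      unfold Y at h3
      simp only [Prod.fst_sub, Prod.snd_sub] at h3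
      exact_mod_cast h3
    have h5 := le_max_right 0 ((y.1 : ℝ) - t.1)
    linarith
  · have h4 : |(t.2 : ℝ) - y.2| ≤ 8 * ((t.1 : ℝ) - y.1) := by
      unfold Y at h3
      simp only [Prod.fst_sub, Prod.snd_sub] at h3
      exact_mod_cast h3
    rw [abs_sub_comm] at h4
    have h5 := le_max_right 0 ((t.1 : ℝ) - y.1)
    linarith

theorem along_close {V : Finset (ℤ × ℤ)} {t : ℤ × ℤ} {c : List (ℕ × ℤ)} (hc : ∀ p ∈ c, 1 ≤ p.1)
    (h : ∀ s ∈ pts t c, CP V s) {m : ℕ} (hm : ∀ p ∈ c, p.1 ≤ m) {y : ℤ × ℤ} (hy : y ∈ V) :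
    |(y.2 : ℝ) - hgt t.2 c (y.1 - t.1)| ≤
      24 * m + 8 * max 0 ((t.1 : ℝ) - y.1) + 8 * max 0 ((y.1 : ℝ) - (t.1 + len c)) := by
  induction c generalizing t with
  | nil =>
    have h1 := cone53 (h t (List.mem_singleton.2 rfl)) hy
    change |(y.2 : ℝ) - t.2| ≤ 24 * m + 8 * max 0 ((t.1 : ℝ) - y.1) +
      8 * max 0 ((y.1 : ℝ) - (t.1 + ((0 : ℕ) : ℝ)))
    rw [Nat.cast_zero, add_zero]
    have h2 : (0 : ℝ) ≤ m := Nat.cast_nonneg _
    linarith
  | cons p c ih =>
    have h0 : (0 : ℝ) ≤ m := Nat.cast_nonneg _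
    have hp := hc p List.mem_cons_self
    have hc' : ∀ q ∈ c, 1 ≤ q.1 := fun q hq => hc q (List.mem_cons_of_mem _ hq)
    have hst := steep_of_cp hc h
    have hCP : CP V t := h t List.mem_cons_self
    have h1 := cone53 hCP hy
    have hmax1 : (0 : ℝ) ≤ max 0 ((t.1 : ℝ) - y.1) := le_max_left _ _
    have hmax2 : (0 : ℝ) ≤ max 0 ((y.1 : ℝ) - (t.1 + len (p :: c))) := le_max_left _ _
    rcases le_total ((y.1 : ℝ) - t.1) 0 with h2 | h2
    · rw [hgt_neg hc h2]
      rw [max_eq_left h2] at h1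
      linarith
    · rcases le_total (p.1 : ℝ) ((y.1 : ℝ) - t.1) with h3 | h3
      · rw [hgt_cons_ge53 hp h3]
        have h4 := ih (t := (t.1 + p.1, p.2)) hc' (fun s hs => h s (List.mem_cons_of_mem _ hs))
          (fun q hq => hm q (List.mem_cons_of_mem _ hq))
        simp only [Int.cast_add, Int.cast_natCast] at h4
        have h5 : (y.1 : ℝ) - ((t.1 : ℝ) + p.1) = (y.1 : ℝ) - t.1 - p.1 := by ring
        have h6 : (t.1 : ℝ) + p.1 - y.1 ≤ 0 := by linarith
        have h7 : (t.1 : ℝ) + p.1 + len c = t.1 + len (p :: c) := by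
          change _ = (t.1 : ℝ) + ((p.1 + len c : ℕ) : ℝ)
          rw [Nat.cast_add]
          ring
        rw [h5, max_eq_left h6, h7] at h4
        linarith
      · have h4 := hgt_lip hc hst ((y.1 : ℝ) - t.1) 0
        rw [hgt_neg hc le_rfl, sub_zero, abs_of_nonneg h2] at h4
        have h5 : (p.1 : ℝ) ≤ m := Nat.cast_le.2 (hm p List.mem_cons_self)
        have h6 : (t.1 : ℝ) - y.1 ≤ 0 := by linarith
        rw [max_eq_left h6, max_eq_right h2] at h1
        have h7 := abs_sub_le (y.2 : ℝ) t.2 (hgt t.2 (p :: c) ((y.1 : ℝ) - t.1))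
        rw [abs_sub_comm (t.2 : ℝ)] at h7
        linarith

end Pool.Agent.Helper49.OZ
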