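import Mathlib
import Pool.Agent.Helper49.OZ.Chain
import Pool.Agent.Helper49.OZ.ChPath
import Pool.Agent.Helper83.OZ.Cut3

/-!
Block AS-5 (`csum_zero`, `csum_succ`, `csum_one`) and block AS-6 (`chain_le`, `chain_eq`): sums over chains and sums over
graphs.

* `csum_zero`: only the empty chain has total length `0`. `csum_succ`: split off the first piece (the sum over
  lists is the term of `[]` plus the sum over `(l, z)` and the tail); pieces have length `≥ 1`.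
* `csum_one`: induction (strong) with `G_zero`, `G_succ` (Helper18/WK/Defs).
* `chain_le`: strong induction on `c'.1 - c.1`. For `c'.1 = c.1`: `Dm c c'` is empty unless `c = c'`, and then it is the
  single vertex with `W = 1`. Otherwise `W γ = F c c' γ + ∑ m ∈ cps γ c c', F c m (low m γ) * W (upp m γ)` (`Ren.step`), summed over
  `γ ∈ DmU c c'` with the weight `Φ γ`: this is the sum over the points `m` with `c.1 < m.1 ≤ c'.1` of
  `∑ γ₁ ∈ DmU c m, ∑ γ₂ ∈ DmU m c', F c m γ₁ * W γ₂ * Φ (join γ₁ γ₂)` (`sum_split_dm`; for `m = c'` the graph `γ₂` is a single vertex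
  and `join γ₁ γ₂ = γ₁`); apply the induction hypothesis to `γ₂` with the function `Φ (join γ₁ ·)` and
  `ψ ((m.1 - c.1, m.2) :: ·)`: the cone points of `γ₂` are cone points of the joined graph (`cp_right`).
  The powers `exp (τ l)` multiply. `csum_succ` on the other side; `K x l z` vanishes unless `1 ≤ x, z` and `|z - x| ≤ 8 l` (then
  `DmU` is empty), so the sum over `z` is finite.
* `chain_eq`: the same with equalities, or `chain_le` with `Φ = 1`, `ψ = 1` and the same induction for the reverse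
  inequality.
-/

open scoped ENNReal

namespace Pool.Agent.Helper49.OZ

open Pool.Agent.Helper18.WK
open Pool.Helper17.OZ (Y CP)
open Pool.Helper83.OZ (Gr Dm cps low upp join)

variable {K : Ker}

/-- Lists are empty or have a first element. -/
private def chs_equiv (α : Type) : Unit ⊕ (α × List α) ≃ List α where
  toFun
    | Sum.inl _ => []
    | Sum.inr p => p.1 :: p.2
  invFun
    | [] => Sum.inl ()
    | a :: c => Sum.inr (a, c)
  left_inv := by
    rintro (u | p)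
    · rfl
    · rfl
  right_inv := by
    intro c
    cases c <;> rfl

private theorem chs_tsum {α : Type} (f : List α → ℝ≥0∞) :
    ∑' c, f c = f [] + ∑' (a : α) (c : List α), f (a :: c) := by
  rw [← (chs_equiv α).tsum_eq, Summable.tsum_sum ENNReal.summable ENNReal.summable]
  congr 1
  · rw [tsum_fintype]
    simp [chs_equiv]
  · rw [← ENNReal.tsum_prod]
    rfl

theorem csum_zero (x y : ℤ) (Φ : List (ℕ × ℤ) → ℝ≥0∞) :
    csum K 0 x y Φ = if x = y then Φ [] else 0 := by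
  unfold csum
  rw [tsum_eq_single []]
  · by_cases h : x = y
    · rw [if_pos h, if_pos ⟨by simp, rfl, h⟩, wt, one_mul]
    · rw [if_neg h, if_neg (fun h' => h h'.2.2)]
  · intro c hc
    cases c with
    | nil => exact absurd rfl hc
    | cons p c =>
      rw [if_neg]
      rintro ⟨h1, h2, _⟩
      have h3 := h1 p List.mem_cons_self
      simp only [len] at h2
      omega

theorem csum_succ (m : ℕ) (x y : ℤ) (Φ : List (ℕ × ℤ) → ℝ≥0∞) :
    csum K (m + 1) x y Φ = ∑ l ∈ Finset.range (m + 1), ∑' z : ℤ,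
      K x (l + 1) z * csum K (m - l) z y (fun c => Φ ((l + 1, z) :: c)) := by
  rw [csum, chs_tsum, if_neg (fun h => by simpa [len] using h.2.1), zero_add, ENNReal.tsum_prod',
    tsum_eq_zero_add' ENNReal.summable]
  have h0 : ∑' (z : ℤ) (c : List (ℕ × ℤ)),
      (if (∀ p ∈ ((0, z) :: c : List (ℕ × ℤ)), 1 ≤ p.1) ∧ len ((0, z) :: c) = m + 1 ∧
        fin x ((0, z) :: c) = y then wt K x ((0, z) :: c) * Φ ((0, z) :: c) else 0) = 0 := by
    refine ENNReal.tsum_eq_zero.2 fun z => ENNReal.tsum_eq_zero.2 fun c => ?_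
    rw [if_neg]
    rintro ⟨h1, _⟩
    have h3 := h1 (0, z) List.mem_cons_self
    simp at h3
  rw [h0, zero_add, tsum_eq_sum (s := Finset.range (m + 1))]
  · refine Finset.sum_congr rfl fun l hl => tsum_congr fun z => ?_
    rw [Finset.mem_range] at hl
    unfold csum
    rw [← ENNReal.tsum_mul_left]
    refine tsum_congr fun c => ?_
    by_cases h : (∀ p ∈ c, 1 ≤ p.1) ∧ len c = m - l ∧ fin z c = y
    · rw [if_pos h, if_pos]
      · rw [wt, mul_assoc]
      · refine ⟨fun p hp => ?_, ?_, h.2.2⟩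
        · rcases List.mem_cons.1 hp with rfl | hp
          · exact Nat.le_add_left 1 l
          · exact h.1 p hp
        · simp only [len]
          omega
    · rw [if_neg h, if_neg, mul_zero]
      rintro ⟨h1, h2, h3⟩
      refine h ⟨fun p hp => h1 p (List.mem_cons_of_mem _ hp), ?_, h3⟩
      simp only [len] at h2
      omega
  · intro l hl
    rw [Finset.mem_range, not_lt] at hl
    refine ENNReal.tsum_eq_zero.2 fun z => ENNReal.tsum_eq_zero.2 fun c => ?_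
    rw [if_neg]
    rintro ⟨_, h2, _⟩
    simp only [len] at h2
    omega

theorem csum_one (m : ℕ) (x y : ℤ) : csum K m x y (fun _ => 1) = G K m x y := by
  induction m using Nat.strong_induction_on generalizing x with
  | _ m ih =>
    cases m with
    | zero => rw [csum_zero, G_zero]
    | succ m =>
      rw [csum_succ, G_succ]
      refine Finset.sum_congr rfl fun l _ => tsum_congr fun z => ?_
      rw [ih (m - l) (by omega)]

theorem csum_mono (m : ℕ) (x y : ℤ) {Φ Ψ : List (ℕ × ℤ) → ℝ≥0∞} (h : ∀ c, Φ c ≤ Ψ c) :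
    csum K m x y Φ ≤ csum K m x y Ψ := by
  unfold csum
  refine ENNReal.tsum_le_tsum fun c => ?_
  split_ifs
  · exact mul_le_mul_right (h c) _
  · exact le_rfl

theorem csum_add (m : ℕ) (x y : ℤ) (Φ Ψ : List (ℕ × ℤ) → ℝ≥0∞) :
    csum K m x y (fun c => Φ c + Ψ c) = csum K m x y Φ + csum K m x y Ψ := by
  unfold csum
  rw [← ENNReal.tsum_add]
  refine tsum_congr fun c => ?_
  split_ifs
  · rw [mul_add]
  · rw [add_zero]

theorem csum_mul (m : ℕ) (x y : ℤ) (a : ℝ≥0∞) (Φ : List (ℕ × ℤ) → ℝ≥0∞) :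
    csum K m x y (fun c => a * Φ c) = a * csum K m x y Φ := by
  unfold csum
  rw [← ENNReal.tsum_mul_left]
  refine tsum_congr fun c => ?_
  split_ifs
  · rw [mul_left_comm]
  · rw [mul_zero]

open Classical in
/-- The diamond graphs with all rows `≥ 1`. -/
noncomputable def DmU (a b : ℤ × ℤ) : Finset Gr := (Dm a b).filter fun γ => ∀ y ∈ γ.1, 1 ≤ y.2

/-- `F` is the renewal part of the weight `W`. -/
structure Ren (W : Gr → ℝ) (F : ℤ × ℤ → ℤ × ℤ → Gr → ℝ) : Prop where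
  W_nonneg : ∀ γ, 0 ≤ W γ
  F_nonneg : ∀ a b : ℤ × ℤ, a.1 < b.1 → ∀ γ ∈ Dm a b, 0 ≤ F a b γ
  W_one : ∀ a : ℤ × ℤ, ∀ γ ∈ Dm a a, W γ = 1
  step : ∀ a b : ℤ × ℤ, a.1 < b.1 → ∀ γ ∈ Dm a b,
    W γ = F a b γ + ∑ m ∈ cps γ a b, F a m (low m γ) * W (upp m γ)

/-- `K` is the kernel of the pieces in the rows `≥ 1`. -/
def IsKer (K : Ker) (F : ℤ × ℤ → ℤ × ℤ → Gr → ℝ) (τ : ℝ) : Prop :=
  ∀ (t x z : ℤ) (l : ℕ), 1 ≤ l →
    K x l z = ENNReal.ofReal (Real.exp (τ * l) * ∑ γ ∈ DmU (t, x) (t + l, z), F (t, x) (t + l, z) γ)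

private theorem mem_DmU99 {a b : ℤ × ℤ} {γ : Gr} : γ ∈ DmU a b ↔ γ ∈ Dm a b ∧ ∀ y ∈ γ.1, 1 ≤ y.2 := by
  unfold DmU
  rw [Finset.mem_filter]

private theorem tip_ne99 (e : Pool.Helper49.FK.Edge) : Pool.Helper49.FK.tip e ≠ e.1 := by
  intro h
  unfold Pool.Helper49.FK.tip at h
  split_ifs at h
  · have := congrArg Prod.fst h
    simp at this
  · have := congrArg Prod.snd h
    simp at this

private theorem mem_edges99 {V : Finset (ℤ × ℤ)} {e : Pool.Helper49.FK.Edge} :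
    e ∈ Pool.Helper49.FK.edges V ↔ e.1 ∈ V ∧ Pool.Helper49.FK.tip e ∈ V := by
  unfold Pool.Helper49.FK.edges
  rw [Finset.mem_filter, Finset.mem_product]
  constructor
  · exact fun h => ⟨h.1.1, h.2⟩
  · exact fun h => ⟨⟨h.1, Finset.mem_univ _⟩, h.2⟩

/-- The only diamond graph with one vertex. -/
private theorem dm_self99 {a : ℤ × ℤ} {γ : Gr} (h : γ ∈ Dm a a) : γ = (({a} : Finset (ℤ × ℤ)), ∅) := by
  rw [Pool.Helper83.OZ.mem_Dm] at h
  obtain ⟨h1, h2, h3, h4, _⟩ := h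
  have hv : γ.1 = {a} := by
    ext y
    rw [Finset.mem_singleton]
    constructor
    · intro hy
      exact Pool.Helper83.OZ.Y_antisymm (h3 y hy) (h2 y hy)
    · rintro rfl
      exact h4
  have he : γ.2 = ∅ := by
    rw [Finset.eq_empty_iff_forall_notMem]
    intro e he
    have h5 := mem_edges99.1 (h1.1 he)
    rw [hv, Finset.mem_singleton, Finset.mem_singleton] at h5
    exact tip_ne99 e (h5.2.trans h5.1.symm)
  exact Prod.ext hv he

private theorem single_mem99 {a : ℤ × ℤ} (ha : 1 ≤ a.2) : ((({a} : Finset (ℤ × ℤ)), ∅) : Gr) ∈ DmU a a := by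
  rw [mem_DmU99, Pool.Helper83.OZ.mem_Dm]
  refine ⟨⟨⟨Finset.empty_subset _, fun x hx y hy => ?_⟩, fun y hy => ?_, fun y hy => ?_,
    Finset.mem_singleton_self a, Finset.mem_singleton_self a⟩, fun y hy => ?_⟩
  · rw [Finset.mem_singleton.1 hx, Finset.mem_singleton.1 hy]
    exact SimpleGraph.Reachable.refl _
  · rw [Finset.mem_singleton.1 hy]
    exact Pool.Helper83.OZ.Y_self a
  · rw [Finset.mem_singleton.1 hy]
    exact Pool.Helper83.OZ.Y_self a
  · rw [Finset.mem_singleton.1 hy]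
    exact ha

private theorem DmU_self99 {a : ℤ × ℤ} (ha : 1 ≤ a.2) :
    DmU a a = {((({a} : Finset (ℤ × ℤ)), ∅) : Gr)} := by
  ext γ
  rw [Finset.mem_singleton]
  constructor
  · exact fun h => dm_self99 (mem_DmU99.1 h).1
  · rintro rfl
    exact single_mem99 ha

private theorem Y_of_mem99 {a b : ℤ × ℤ} {γ : Gr} (h : γ ∈ DmU a b) : Y (b - a) := by
  have h1 := Pool.Helper83.OZ.mem_Dm.1 (mem_DmU99.1 h).1
  exact h1.2.1 b h1.2.2.2.2

private theorem empty99 {a b : ℤ × ℤ} (h : ¬ Y (b - a)) : DmU a b = ∅ :=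
  Finset.eq_empty_iff_forall_notMem.2 fun _ hγ => h (Y_of_mem99 hγ)

/-- two diamond graphs can be joined -/
private theorem jn99 {a m b : ℤ × ℤ} {γ δ : Gr} (h : γ ∈ DmU a m) (h' : δ ∈ DmU m b) :
    Pool.Helper83.OZ.Jn γ δ m := by
  have h1 := Pool.Helper83.OZ.mem_Dm.1 (mem_DmU99.1 h).1
  have h2 := Pool.Helper83.OZ.mem_Dm.1 (mem_DmU99.1 h').1
  exact ⟨h1.1, h2.1, h1.2.2.2.2, h2.2.2.2.1, h1.2.2.1, h2.2.1⟩

private theorem join_mem99 {a m b : ℤ × ℤ} {γ δ : Gr} (h : γ ∈ DmU a m) (h' : δ ∈ DmU m b) :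
    join γ δ ∈ DmU a b := by
  have h1 := Pool.Helper83.OZ.mem_Dm.1 (mem_DmU99.1 h).1
  have h2 := Pool.Helper83.OZ.mem_Dm.1 (mem_DmU99.1 h').1
  have h3 : Y (m - a) := h1.2.1 m h1.2.2.2.2
  have h4 : Y (b - m) := h2.2.1 b h2.2.2.2.2
  rw [mem_DmU99, Pool.Helper83.OZ.mem_Dm]
  refine ⟨⟨(jn99 h h').clu, fun y hy => ?_, fun y hy => ?_, Finset.mem_union_left _ h1.2.2.2.1,
    Finset.mem_union_right _ h2.2.2.2.2⟩, fun y hy => ?_⟩
  · rcases Finset.mem_union.1 hy with hy | hy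
    · exact h1.2.1 y hy
    · exact Pool.Helper83.OZ.Y_trans h3 (h2.2.1 y hy)
  · rcases Finset.mem_union.1 hy with hy | hy
    · exact Pool.Helper83.OZ.Y_trans (h1.2.2.1 y hy) h4
    · exact h2.2.2.1 y hy
  · rcases Finset.mem_union.1 hy with hy | hy
    · exact (mem_DmU99.1 h).2 y hy
    · exact (mem_DmU99.1 h').2 y hy

/-- the double sum over the two parts at `p` -/
private noncomputable def ds99 (W : Gr → ℝ) (F : ℤ × ℤ → ℤ × ℤ → Gr → ℝ) (Φ : Gr → ℝ) (c c' p : ℤ × ℤ) : ℝ :=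
  ∑ γ ∈ DmU c p, ∑ δ ∈ DmU p c', F c p γ * (W δ * Φ (join γ δ))

open Classical in
private theorem ds_cp99 {W : Gr → ℝ} {F : ℤ × ℤ → ℤ × ℤ → Gr → ℝ} (Φ : Gr → ℝ) {c c' p : ℤ × ℤ} :
    (∑ γ ∈ DmU c c', if CP γ.1 p then F c p (low p γ) * (W (upp p γ) * Φ γ) else 0) = ds99 W F Φ c c' p := by
  by_cases hY : Y (p - c) ∧ Y (c' - p)
  · have h1 := Pool.Helper83.OZ.sum_split_dm hY.1 hY.2
      (fun γ => if ∀ y ∈ γ.1, 1 ≤ y.2 then F c p (low p γ) * (W (upp p γ) * Φ γ) else 0)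
    have h2 : (∑ γ ∈ DmU c c', if CP γ.1 p then F c p (low p γ) * (W (upp p γ) * Φ γ) else 0) =
        ∑ γ ∈ Dm c c', if CP γ.1 p then
          (if ∀ y ∈ γ.1, 1 ≤ y.2 then F c p (low p γ) * (W (upp p γ) * Φ γ) else 0) else 0 := by
      unfold DmU
      rw [Finset.sum_filter]
      refine Finset.sum_congr rfl fun γ _ => ?_
      by_cases h3 : ∀ y ∈ γ.1, 1 ≤ y.2
      · rw [if_pos h3, if_pos h3]
      · rw [if_neg h3, if_neg h3, ite_self]
    rw [h2, h1]
    unfold ds99 DmU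
    rw [Finset.sum_filter]
    refine Finset.sum_congr rfl fun γ hγ => ?_
    by_cases h3 : ∀ y ∈ γ.1, 1 ≤ y.2
    · rw [if_pos h3, Finset.sum_filter]
      refine Finset.sum_congr rfl fun δ hδ => ?_
      by_cases h4 : ∀ y ∈ δ.1, 1 ≤ y.2
      · have hj : Pool.Helper83.OZ.Jn γ δ p := jn99 (mem_DmU99.2 ⟨hγ, h3⟩) (mem_DmU99.2 ⟨hδ, h4⟩)
        rw [if_pos h4, if_pos, hj.low, hj.upp]
        intro y hy
        rcases Finset.mem_union.1 hy with hy | hy
        · exact h3 y hy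
        · exact h4 y hy
      · rw [if_neg h4, if_neg]
        exact fun h5 => h4 fun y hy => h5 y (Finset.mem_union_right _ hy)
    · rw [if_neg h3]
      refine Finset.sum_eq_zero fun δ _ => ?_
      rw [if_neg]
      exact fun h5 => h3 fun y hy => h5 y (Finset.mem_union_left _ hy)
  · have h1 : ds99 W F Φ c c' p = 0 := by
      unfold ds99
      rw [not_and_or] at hY
      rcases hY with hY | hY
      · rw [empty99 hY, Finset.sum_empty]
      · exact Finset.sum_eq_zero fun γ _ => by rw [empty99 hY, Finset.sum_empty]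
    rw [h1]
    refine Finset.sum_eq_zero fun γ hγ => if_neg fun hcp => hY ?_
    have h2 := Pool.Helper83.OZ.mem_Dm.1 (mem_DmU99.1 hγ).1
    exact ⟨h2.2.1 p hcp.1, h2.2.2.1 p hcp.1⟩

private theorem ds_end99 {W : Gr → ℝ} {F : ℤ × ℤ → ℤ × ℤ → Gr → ℝ} (hR : Ren W F) (Φ : Gr → ℝ)
    {c c' : ℤ × ℤ} : ds99 W F Φ c c' c' = ∑ γ ∈ DmU c c', F c c' γ * Φ γ := by
  unfold ds99
  refine Finset.sum_congr rfl fun γ hγ => ?_
  have h2 := Pool.Helper83.OZ.mem_Dm.1 (mem_DmU99.1 hγ).1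
  have hc' : 1 ≤ c'.2 := (mem_DmU99.1 hγ).2 c' h2.2.2.2.2
  rw [DmU_self99 hc', Finset.sum_singleton, hR.W_one c' _ (mem_DmU99.1 (single_mem99 hc')).1, one_mul]
  congr 2
  refine Prod.ext ?_ ?_
  · change γ.1 ∪ {c'} = γ.1
    rw [Finset.union_eq_left, Finset.singleton_subset_iff]
    exact h2.2.2.2.2
  · change γ.2 ∪ ∅ = γ.2
    rw [Finset.union_empty]

/-- the rows that matter -/
private noncomputable def rows99 (c : ℤ × ℤ) (m : ℕ) : Finset ℤ :=
  Finset.Icc (c.2 - 8 * ((m : ℤ) + 1)) (c.2 + 8 * ((m : ℤ) + 1))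

private theorem rows_of_Y99 {c : ℤ × ℤ} {m l : ℕ} (hl : l ≤ m) {z : ℤ}
    (h : Y ((c.1 + ((l : ℤ) + 1), z) - c)) : z ∈ rows99 c m := by
  unfold Y at h
  unfold rows99
  rw [Finset.mem_Icc]
  simp only [Prod.fst_sub, Prod.snd_sub] at h
  rw [abs_le] at h
  constructor
  · have := h.1
    omega
  · have := h.2
    omega

private theorem step99 {W : Gr → ℝ} {F : ℤ × ℤ → ℤ × ℤ → Gr → ℝ} (hR : Ren W F) (Φ : Gr → ℝ)
    {c c' : ℤ × ℤ} {m : ℕ} (hm : c'.1 = c.1 + ((m : ℤ) + 1)) :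
    ∑ γ ∈ DmU c c', W γ * Φ γ = ∑ l ∈ Finset.range (m + 1), ∑ z ∈ rows99 c m,
      ds99 W F Φ c c' (c.1 + ((l : ℤ) + 1), z) := by
  classical
  have h1 : ∑ γ ∈ DmU c c', W γ * Φ γ = ∑ γ ∈ DmU c c', F c c' γ * Φ γ +
      ∑ γ ∈ DmU c c', ∑ p ∈ cps γ c c', F c p (low p γ) * (W (upp p γ) * Φ γ) := by
    rw [← Finset.sum_add_distrib]
    refine Finset.sum_congr rfl fun γ hγ => ?_
    rw [hR.step c c' (by omega) γ (mem_DmU99.1 hγ).1, add_mul, Finset.sum_mul]
    congr 1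
    refine Finset.sum_congr rfl fun p _ => ?_
    ring
  rw [h1, Finset.sum_range_succ, add_comm]
  congr 1
  · have h2 : ∀ γ ∈ DmU c c', ∑ p ∈ cps γ c c', F c p (low p γ) * (W (upp p γ) * Φ γ) =
        ∑ l ∈ Finset.range m, ∑ z ∈ rows99 c m, (if CP γ.1 (c.1 + ((l : ℤ) + 1), z) then
          F c (c.1 + ((l : ℤ) + 1), z) (low (c.1 + ((l : ℤ) + 1), z) γ) *
            (W (upp (c.1 + ((l : ℤ) + 1), z) γ) * Φ γ) else 0) := by
      intro γ hγ
      have h3 := Pool.Helper83.OZ.mem_Dm.1 (mem_DmU99.1 hγ).1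
      rw [← Finset.sum_product', ← Finset.sum_filter]
      refine Finset.sum_bij' (fun p _ => ((p.1 - c.1 - 1).toNat, p.2))
        (fun q _ => (c.1 + ((q.1 : ℤ) + 1), q.2)) ?_ ?_ ?_ ?_ ?_
      · intro p hp
        have h4 := Pool.Helper83.OZ.mem_cps.1 hp
        have h5 : (((p.1 - c.1 - 1).toNat : ℕ) : ℤ) = p.1 - c.1 - 1 := Int.toNat_of_nonneg (by omega)
        have h6 : ((c.1 + ((((p.1 - c.1 - 1).toNat : ℕ) : ℤ) + 1), p.2) : ℤ × ℤ) = p := by
          rw [h5]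
          exact Prod.ext (by simp) rfl
        rw [Finset.mem_filter, Finset.mem_product]
        refine ⟨⟨?_, ?_⟩, ?_⟩
        · rw [Finset.mem_range]
          have := h4.2.2
          change (p.1 - c.1 - 1).toNat < m
          omega
        · refine rows_of_Y99 (l := (p.1 - c.1 - 1).toNat) (by omega) ?_
          change Y ((c.1 + ((((p.1 - c.1 - 1).toNat : ℕ) : ℤ) + 1), p.2) - c)
          rw [h6]
          exact h3.2.1 p h4.1.1
        · change CP γ.1 (c.1 + ((((p.1 - c.1 - 1).toNat : ℕ) : ℤ) + 1), p.2)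
          rw [h6]
          exact h4.1
      · intro q hq
        rw [Finset.mem_filter, Finset.mem_product, Finset.mem_range] at hq
        refine Pool.Helper83.OZ.mem_cps.2 ⟨hq.2, ?_, ?_⟩
        · change c.1 < c.1 + ((q.1 : ℤ) + 1)
          omega
        · change c.1 + ((q.1 : ℤ) + 1) < c'.1
          have := hq.1.1
          omega
      · intro p hp
        have h4 := Pool.Helper83.OZ.mem_cps.1 hp
        have h5 : (((p.1 - c.1 - 1).toNat : ℕ) : ℤ) = p.1 - c.1 - 1 := Int.toNat_of_nonneg (by omega)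
        refine Prod.ext ?_ rfl
        change c.1 + ((((p.1 - c.1 - 1).toNat : ℕ) : ℤ) + 1) = p.1
        omega
      · intro q hq
        refine Prod.ext ?_ rfl
        change (c.1 + ((q.1 : ℤ) + 1) - c.1 - 1).toNat = q.1
        omega
      · intro p hp
        have h4 := Pool.Helper83.OZ.mem_cps.1 hp
        have h5 : (((p.1 - c.1 - 1).toNat : ℕ) : ℤ) = p.1 - c.1 - 1 := Int.toNat_of_nonneg (by omega)
        have h6 : ((c.1 + ((((p.1 - c.1 - 1).toNat : ℕ) : ℤ) + 1), p.2) : ℤ × ℤ) = p := by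
          rw [h5]
          exact Prod.ext (by simp) rfl
        change _ = F c (c.1 + ((((p.1 - c.1 - 1).toNat : ℕ) : ℤ) + 1), p.2)
          (low (c.1 + ((((p.1 - c.1 - 1).toNat : ℕ) : ℤ) + 1), p.2) γ) *
          (W (upp (c.1 + ((((p.1 - c.1 - 1).toNat : ℕ) : ℤ) + 1), p.2) γ) * Φ γ)
        rw [h6]
    rw [Finset.sum_congr rfl h2, Finset.sum_comm]
    refine Finset.sum_congr rfl fun l _ => ?_
    rw [Finset.sum_comm]
    refine Finset.sum_congr rfl fun z _ => ?_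
    exact ds_cp99 Φ
  · rw [← hm]
    rw [← ds_end99 hR Φ, Finset.sum_eq_single c'.2]
    · intro z _ hz
      unfold ds99
      refine Finset.sum_eq_zero fun γ _ => ?_
      rw [empty99, Finset.sum_empty]
      intro hY
      unfold Y at hY
      simp only [Prod.fst_sub, Prod.snd_sub, sub_self, mul_zero] at hY
      have := abs_nonneg (c'.2 - z)
      have h5 : c'.2 - z = 0 := abs_eq_zero.1 (le_antisymm hY this)
      exact hz (by omega)
    · intro hz
      unfold ds99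
      refine Finset.sum_eq_zero fun γ hγ => ?_
      exfalso
      apply hz
      have hY := Y_of_mem99 hγ
      refine rows_of_Y99 (l := m) le_rfl ?_
      rw [← hm]
      exact hY

/-- the kernel vanishes outside the cone -/
private theorem ker_zero99 {F : ℤ × ℤ → ℤ × ℤ → Gr → ℝ} {τ : ℝ} (hK : IsKer K F τ) {c : ℤ × ℤ} {m l : ℕ}
    (hl : l ≤ m) {z : ℤ} (hz : z ∉ rows99 c m) : K c.2 (l + 1) z = 0 := by
  rw [hK c.1 c.2 z (l + 1) (by omega)]
  have h1 : DmU (c.1, c.2) (c.1 + ((l + 1 : ℕ) : ℤ), z) = ∅ := by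
    refine empty99 fun h => hz (rows_of_Y99 hl ?_)
    push_cast at h
    exact h
  rw [h1, Finset.sum_empty, mul_zero, ENNReal.ofReal_zero]

private theorem F_nonneg99 {W : Gr → ℝ} {F : ℤ × ℤ → ℤ × ℤ → Gr → ℝ} (hR : Ren W F) {c : ℤ × ℤ} {l : ℕ} {z : ℤ}
    {γ : Gr} (h : γ ∈ DmU c (c.1 + ((l : ℤ) + 1), z)) : 0 ≤ F c (c.1 + ((l : ℤ) + 1), z) γ :=
  hR.F_nonneg c _ (by change c.1 < c.1 + ((l : ℤ) + 1); omega) γ (mem_DmU99.1 h).1

private theorem ds_nonneg99 {W : Gr → ℝ} {F : ℤ × ℤ → ℤ × ℤ → Gr → ℝ} (hR : Ren W F) {Φ : Gr → ℝ}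
    (hΦ : ∀ γ, 0 ≤ Φ γ) (c c' : ℤ × ℤ) (l : ℕ) (z : ℤ) : 0 ≤ ds99 W F Φ c c' (c.1 + ((l : ℤ) + 1), z) :=
  Finset.sum_nonneg fun _ hγ => Finset.sum_nonneg fun δ _ =>
    mul_nonneg (F_nonneg99 hR hγ) (mul_nonneg (hR.W_nonneg δ) (hΦ _))

/-- one term of the recursion -/
private theorem term99 {W : Gr → ℝ} {F : ℤ × ℤ → ℤ × ℤ → Gr → ℝ} {τ : ℝ} (hR : Ren W F) (hK : IsKer K F τ)
    {c c' : ℤ × ℤ} {m l : ℕ} (hl : l ≤ m) {z : ℤ} {Φ : Gr → ℝ} (hΦ : ∀ γ, 0 ≤ Φ γ) {g : ℝ≥0∞}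
    (hg : ∀ γ ∈ DmU c (c.1 + ((l : ℤ) + 1), z), g ≤ ENNReal.ofReal (Real.exp (τ * ((m - l : ℕ) : ℝ)) *
      ∑ δ ∈ DmU (c.1 + ((l : ℤ) + 1), z) c', W δ * Φ (join γ δ))) :
    K c.2 (l + 1) z * g ≤ ENNReal.ofReal (Real.exp (τ * ((m : ℝ) + 1)) *
      ds99 W F Φ c c' (c.1 + ((l : ℤ) + 1), z)) := by
  have h1 := hK c.1 c.2 z (l + 1) (by omega)
  have h2 : ((c.1 + ((l + 1 : ℕ) : ℤ), z) : ℤ × ℤ) = (c.1 + ((l : ℤ) + 1), z) := by
    push_cast
    rfl
  rw [h2] at h1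
  have h3 : K c.2 (l + 1) z = ∑ γ ∈ DmU c (c.1 + ((l : ℤ) + 1), z),
      ENNReal.ofReal (Real.exp (τ * ((l : ℝ) + 1)) * F c (c.1 + ((l : ℤ) + 1), z) γ) := by
    rw [h1, Finset.mul_sum, ENNReal.ofReal_sum_of_nonneg]
    · refine Finset.sum_congr rfl fun γ _ => ?_
      push_cast
      rfl
    · exact fun γ hγ => mul_nonneg (Real.exp_pos _).le (F_nonneg99 hR hγ)
  rw [h3, Finset.sum_mul]
  have h4 : Real.exp (τ * ((m : ℝ) + 1)) * ds99 W F Φ c c' (c.1 + ((l : ℤ) + 1), z) =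
      ∑ γ ∈ DmU c (c.1 + ((l : ℤ) + 1), z),
        (Real.exp (τ * ((l : ℝ) + 1)) * F c (c.1 + ((l : ℤ) + 1), z) γ) *
        (Real.exp (τ * ((m - l : ℕ) : ℝ)) * ∑ δ ∈ DmU (c.1 + ((l : ℤ) + 1), z) c', W δ * Φ (join γ δ)) := by
    unfold ds99
    rw [Finset.mul_sum]
    refine Finset.sum_congr rfl fun γ _ => ?_
    rw [← Finset.mul_sum]
    have h5 : Real.exp (τ * ((m : ℝ) + 1)) = Real.exp (τ * ((l : ℝ) + 1)) * Real.exp (τ * ((m - l : ℕ) : ℝ)) := by
      rw [← Real.exp_add]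
      congr 1
      rw [Nat.cast_sub hl]
      ring
    rw [h5]
    ring
  rw [h4, ENNReal.ofReal_sum_of_nonneg]
  · refine Finset.sum_le_sum fun γ hγ => ?_
    rw [ENNReal.ofReal_mul (mul_nonneg (Real.exp_pos _).le (F_nonneg99 hR hγ))]
    exact mul_le_mul' le_rfl (hg γ hγ)
  · exact fun γ hγ => mul_nonneg (mul_nonneg (Real.exp_pos _).le (F_nonneg99 hR hγ))
      (mul_nonneg (Real.exp_pos _).le (Finset.sum_nonneg fun δ _ => mul_nonneg (hR.W_nonneg δ) (hΦ _)))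

private theorem term_eq99 {W : Gr → ℝ} {F : ℤ × ℤ → ℤ × ℤ → Gr → ℝ} {τ : ℝ} (hR : Ren W F) (hK : IsKer K F τ)
    {c c' : ℤ × ℤ} {m l : ℕ} (hl : l ≤ m) {z : ℤ} {g : ℝ≥0∞}
    (hg : 1 ≤ z → g = ENNReal.ofReal (Real.exp (τ * ((m - l : ℕ) : ℝ)) *
      ∑ δ ∈ DmU (c.1 + ((l : ℤ) + 1), z) c', W δ)) :
    K c.2 (l + 1) z * g = ENNReal.ofReal (Real.exp (τ * ((m : ℝ) + 1)) *
      ds99 W F (fun _ => 1) c c' (c.1 + ((l : ℤ) + 1), z)) := by
  have h1 := hK c.1 c.2 z (l + 1) (by omega)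
  have h2 : ((c.1 + ((l + 1 : ℕ) : ℤ), z) : ℤ × ℤ) = (c.1 + ((l : ℤ) + 1), z) := by
    push_cast
    rfl
  rw [h2] at h1
  have h4 : Real.exp (τ * ((m : ℝ) + 1)) * ds99 W F (fun _ => 1) c c' (c.1 + ((l : ℤ) + 1), z) =
      (Real.exp (τ * ((l + 1 : ℕ) : ℝ)) * ∑ γ ∈ DmU c (c.1 + ((l : ℤ) + 1), z), F c (c.1 + ((l : ℤ) + 1), z) γ) *
        (Real.exp (τ * ((m - l : ℕ) : ℝ)) * ∑ δ ∈ DmU (c.1 + ((l : ℤ) + 1), z) c', W δ) := by
    unfold ds99
    have h6 : ∑ γ ∈ DmU c (c.1 + ((l : ℤ) + 1), z), ∑ δ ∈ DmU (c.1 + ((l : ℤ) + 1), z) c',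
        F c (c.1 + ((l : ℤ) + 1), z) γ * (W δ * 1) =
        (∑ γ ∈ DmU c (c.1 + ((l : ℤ) + 1), z), F c (c.1 + ((l : ℤ) + 1), z) γ) *
          ∑ δ ∈ DmU (c.1 + ((l : ℤ) + 1), z) c', W δ := by
      rw [Finset.sum_mul_sum]
      refine Finset.sum_congr rfl fun γ _ => Finset.sum_congr rfl fun δ _ => ?_
      rw [mul_one]
    rw [h6]
    have h5 : Real.exp (τ * ((m : ℝ) + 1)) =
        Real.exp (τ * ((l + 1 : ℕ) : ℝ)) * Real.exp (τ * ((m - l : ℕ) : ℝ)) := by
      rw [← Real.exp_add]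
      congr 1
      rw [Nat.cast_sub hl]
      push_cast
      ring
    rw [h5]
    ring
  rcases (DmU c (c.1 + ((l : ℤ) + 1), z)).eq_empty_or_nonempty with h5 | h5
  · have h6 : K c.2 (l + 1) z = 0 := by
      rw [h1]
      change ENNReal.ofReal (_ * ∑ γ ∈ DmU c _, _) = 0
      rw [h5, Finset.sum_empty, mul_zero, ENNReal.ofReal_zero]
    rw [h6, zero_mul, h4, h5, Finset.sum_empty, mul_zero, zero_mul, ENNReal.ofReal_zero]
  · obtain ⟨γ, hγ⟩ := h5
    have h6 := Pool.Helper83.OZ.mem_Dm.1 (mem_DmU99.1 hγ).1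
    have hz : 1 ≤ z := (mem_DmU99.1 hγ).2 _ h6.2.2.2.2
    rw [h4, ENNReal.ofReal_mul (mul_nonneg (Real.exp_pos _).le
      (Finset.sum_nonneg fun γ hγ => F_nonneg99 hR hγ)), ← hg hz, h1]

theorem chain_le {W : Gr → ℝ} {F : ℤ × ℤ → ℤ × ℤ → Gr → ℝ} {τ : ℝ} (hR : Ren W F) (hK : IsKer K F τ)
    {c c' : ℤ × ℤ} {m : ℕ} (hc : 1 ≤ c.2) (hm : c'.1 = c.1 + m) {Φ : Gr → ℝ} (hΦ : ∀ γ, 0 ≤ Φ γ)
    {ψ : List (ℕ × ℤ) → ℝ≥0∞}
    (h : ∀ γ ∈ DmU c c', ∀ ch : List (ℕ × ℤ), (∀ p ∈ ch, 1 ≤ p.1) → len ch = m → fin c.2 ch = c'.2 →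
      (∀ s ∈ pts c ch, CP γ.1 s) → ψ ch ≤ ENNReal.ofReal (Φ γ)) :
    csum K m c.2 c'.2 ψ ≤ ENNReal.ofReal (Real.exp (τ * m) * ∑ γ ∈ DmU c c', W γ * Φ γ) := by
  induction m using Nat.strong_induction_on generalizing c Φ ψ with
  | _ m ih =>
    rcases m with _ | m
    · rw [csum_zero]
      by_cases hcc : c.2 = c'.2
      · have hcc' : c = c' := Prod.ext (by rw [hm]; simp) hcc
        subst hcc'
        rw [if_pos rfl, DmU_self99 hc, Finset.sum_singleton, Nat.cast_zero, mul_zero, Real.exp_zero, one_mul,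
          hR.W_one c _ (mem_DmU99.1 (single_mem99 hc)).1, one_mul]
        refine h _ (single_mem99 hc) [] (by simp) rfl rfl fun s hs => ?_
        have hs' : s = c := by simpa [pts] using hs
        rw [hs']
        refine ⟨Finset.mem_singleton_self c, fun y hy => ?_⟩
        rw [Finset.mem_singleton.1 hy]
        exact Or.inl (Pool.Helper83.OZ.Y_self c)
      · rw [if_neg hcc]
        exact zero_le
    · have hm' : c'.1 = c.1 + ((m : ℤ) + 1) := by
        rw [hm]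
        push_cast
        ring
      rw [csum_succ, step99 hR Φ hm', Finset.mul_sum, ENNReal.ofReal_sum_of_nonneg (fun l _ =>
        mul_nonneg (Real.exp_pos _).le (Finset.sum_nonneg fun z _ => ds_nonneg99 hR hΦ c c' l z))]
      refine Finset.sum_le_sum fun l hl => ?_
      have hl' : l ≤ m := Nat.lt_succ_iff.1 (Finset.mem_range.1 hl)
      rw [Finset.mul_sum, ENNReal.ofReal_sum_of_nonneg (fun z _ =>
        mul_nonneg (Real.exp_pos _).le (ds_nonneg99 hR hΦ c c' l z)), tsum_eq_sum (s := rows99 c m) (fun z hz => by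
          rw [ker_zero99 hK hl' hz, zero_mul])]
      refine Finset.sum_le_sum fun z _ => ?_
      refine (term99 (c := c) (c' := c') hR hK hl' (z := z) hΦ
        (g := csum K (m - l) z c'.2 fun ch => ψ ((l + 1, z) :: ch)) (fun γ hγ => ?_)).trans (le_of_eq ?_)
      · have h6 := Pool.Helper83.OZ.mem_Dm.1 (mem_DmU99.1 hγ).1
        have hz : 1 ≤ z := (mem_DmU99.1 hγ).2 _ h6.2.2.2.2
        refine ih (m - l) (by omega) (c := (c.1 + ((l : ℤ) + 1), z)) hz ?_ (Φ := fun δ => Φ (join γ δ))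
          (fun δ => hΦ _) ?_
        · rw [hm']
          change _ = c.1 + ((l : ℤ) + 1) + ((m - l : ℕ) : ℤ)
          omega
        · intro δ hδ ch h1 h2 h3 h4
          have hj := jn99 hγ hδ
          refine h _ (join_mem99 hγ hδ) ((l + 1, z) :: ch) ?_ ?_ h3 ?_
          · intro p hp
            rcases List.mem_cons.1 hp with rfl | hp
            · exact Nat.le_add_left 1 l
            · exact h1 p hp
          · change l + 1 + len ch = m + 1
            omega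
          · intro s hs
            have hs' : s = c ∨ s ∈ pts (c.1 + (((l + 1, z) : ℕ × ℤ).1 : ℤ), z) ch := by
              simpa [pts] using hs
            rcases hs' with rfl | hs'
            · have h7 := Pool.Helper83.OZ.mem_Dm.1 (mem_DmU99.1 (join_mem99 hγ hδ)).1
              exact ⟨h7.2.2.2.1, fun y hy => Or.inl (h7.2.1 y hy)⟩
            · have h8 : ((c.1 + (((l + 1, z) : ℕ × ℤ).1 : ℤ), z) : ℤ × ℤ) = (c.1 + ((l : ℤ) + 1), z) := by
                push_cast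
                rfl
              rw [h8] at hs'
              have h9 := h4 s hs'
              exact (hj.cp_right (Pool.Helper83.OZ.Y_le (hj.fw s h9.1))).2 h9
      · push_cast
        rfl

theorem chain_eq {W : Gr → ℝ} {F : ℤ × ℤ → ℤ × ℤ → Gr → ℝ} {τ : ℝ} (hR : Ren W F) (hK : IsKer K F τ)
    {c c' : ℤ × ℤ} {m : ℕ} (hc : 1 ≤ c.2) (hm : c'.1 = c.1 + m) :
    G K m c.2 c'.2 = ENNReal.ofReal (Real.exp (τ * m) * ∑ γ ∈ DmU c c', W γ) := by
  induction m using Nat.strong_induction_on generalizing c with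
  | _ m ih =>
    rcases m with _ | m
    · rw [G_zero]
      by_cases hcc : c.2 = c'.2
      · have hcc' : c = c' := Prod.ext (by rw [hm]; simp) hcc
        subst hcc'
        rw [if_pos rfl, DmU_self99 hc, Finset.sum_singleton, Nat.cast_zero, mul_zero, Real.exp_zero, one_mul,
          hR.W_one c _ (mem_DmU99.1 (single_mem99 hc)).1, ENNReal.ofReal_one]
      · rw [if_neg hcc]
        have h1 : DmU c c' = ∅ := by
          refine empty99 fun hY => hcc ?_
          unfold Y at hY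
          simp only [Prod.fst_sub, Prod.snd_sub, hm, Nat.cast_zero, add_zero, sub_self, mul_zero] at hY
          have h5 : c'.2 - c.2 = 0 := abs_eq_zero.1 (le_antisymm hY (abs_nonneg _))
          omega
        rw [h1, Finset.sum_empty, mul_zero, ENNReal.ofReal_zero]
    · have hm' : c'.1 = c.1 + ((m : ℤ) + 1) := by
        rw [hm]
        push_cast
        ring
      have h0 : ∑ γ ∈ DmU c c', W γ = ∑ γ ∈ DmU c c', W γ * (fun _ => (1 : ℝ)) γ :=
        Finset.sum_congr rfl fun γ _ => (mul_one _).symm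
      have hΦ : ∀ γ : Gr, 0 ≤ (fun _ => (1 : ℝ)) γ := fun _ => zero_le_one
      rw [G_succ, h0, step99 hR (fun _ => (1 : ℝ)) hm', Finset.mul_sum, ENNReal.ofReal_sum_of_nonneg (fun l _ =>
        mul_nonneg (Real.exp_pos _).le (Finset.sum_nonneg fun z _ => ds_nonneg99 hR hΦ c c' l z))]
      refine Finset.sum_congr rfl fun l hl => ?_
      have hl' : l ≤ m := Nat.lt_succ_iff.1 (Finset.mem_range.1 hl)
      rw [Finset.mul_sum, ENNReal.ofReal_sum_of_nonneg (fun z _ =>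
        mul_nonneg (Real.exp_pos _).le (ds_nonneg99 hR hΦ c c' l z)), tsum_eq_sum (s := rows99 c m) (fun z hz => by
          rw [ker_zero99 hK hl' hz, zero_mul])]
      refine Finset.sum_congr rfl fun z _ => ?_
      rw [term_eq99 (c' := c') hR hK hl' (fun hz => ?_)]
      · push_cast
        rfl
      · refine ih (m - l) (by omega) (c := (c.1 + ((l : ℤ) + 1), z)) hz ?_
        rw [hm']
        change _ = c.1 + ((l : ℤ) + 1) + ((m - l : ℕ) : ℤ)
        omega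

end Pool.Agent.Helper49.OZ
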