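import Mathlib
import Pool.Agent.Helper49.QP.Geo
import Pool.Agent.Helper49.FL.Def

/-!
Block AS-3: the path of the top heights of a vertex set; comparison with the interface.

`topV V x` is the largest height of a vertex of `V` in the column `x` (`0` if there is none; `sSup` of a finite set of
reals). `Thin V T`: in each column the heights of `V` differ by at most `T`.

* `topV_mem`, `topV_near`: a nonempty finite set attains its supremum.
* `fpath_node`, `fpath_close`: both functions are interpolations on the grid `x / n`; the tent functions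
  `max 0 (1 - |n (s + 1) - x|)`, `0 ≤ x ≤ 2n`, are nonnegative with sum `1` on `[-1, 1]` (`n ≥ 1`).
* `path_close`: by `gp_geo` the point `(x + n, K)` is in the cluster of `(0, 0)`, `Gp ω x = K + 1/2`, and
  `|K - topV| ≤ T` by `Thin`. `path n ω s = ∑ over |x| ≤ n of Gp ω x / √n * max 0 (1 - |n s - x|)`: shift `x` by `n`.
-/

namespace Pool.Agent.Helper49.OZ

open Pool.Agent.Helper49.FL (TI)
open Pool.Agent.Helper49.QP

/-- The largest height of `V` in the column `x`. -/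
noncomputable def topV (V : Finset (ℤ × ℤ)) (x : ℤ) : ℝ :=
  sSup ((fun y : ℤ × ℤ => (y.2 : ℝ)) '' {y | y ∈ V ∧ y.1 = x})

/-- The columns of `V` have height at most `T`. -/
def Thin (V : Finset (ℤ × ℤ)) (T : ℝ) : Prop := ∀ y ∈ V, ∀ z ∈ V, y.1 = z.1 → |(y.2 : ℝ) - z.2| ≤ T

/-- The rescaled path of the top heights; the columns `0..2n` correspond to `[-1, 1]`. -/
noncomputable def fpath (n : ℕ) (V : Finset (ℤ × ℤ)) : C(TI, ℝ) where
  toFun s := ∑ x ∈ Finset.Icc (0 : ℤ) (2 * n), topV V x / Real.sqrt n * max 0 (1 - |n * ((s : ℝ) + 1) - x|)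
  continuous_toFun := by fun_prop

private theorem exists_cell52 {m : ℤ} (hm : 1 ≤ m) {u : ℝ} (hu0 : 0 ≤ u) (hu1 : u ≤ m) :
    ∃ k : ℤ, 0 ≤ k ∧ k + 1 ≤ m ∧ (k : ℝ) ≤ u ∧ u ≤ k + 1 := by
  have hf0 : (0 : ℤ) ≤ ⌊u⌋ := Int.floor_nonneg.mpr hu0
  rcases le_or_gt (⌊u⌋ + 1) m with h | h
  · exact ⟨⌊u⌋, hf0, h, Int.floor_le u, (Int.lt_floor_add_one u).le⟩
  · refine ⟨m - 1, by omega, by omega, ?_, ?_⟩
    · have h1 : ((m - 1 : ℤ) : ℝ) ≤ ((⌊u⌋ : ℤ) : ℝ) := by exact_mod_cast (by omega : m - 1 ≤ ⌊u⌋)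
      exact h1.trans (Int.floor_le u)
    · push_cast
      linarith

/-- The tent functions are a partition of unity. -/
private theorem tent_sum52 {m : ℤ} (hm : 1 ≤ m) {u : ℝ} (hu0 : 0 ≤ u) (hu1 : u ≤ m) :
    ∑ x ∈ Finset.Icc (0 : ℤ) m, max 0 (1 - |u - x|) = 1 := by
  obtain ⟨k, hk0, hkm, hku, huk⟩ := exists_cell52 hm hu0 hu1
  have hne : k ≠ k + 1 := by omega
  have hsub : ({k, k + 1} : Finset ℤ) ⊆ Finset.Icc 0 m := by
    intro x hx
    rw [Finset.mem_insert, Finset.mem_singleton] at hx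
    rw [Finset.mem_Icc]
    omega
  rw [← Finset.sum_subset hsub, Finset.sum_pair hne]
  · have h1 : |u - (k : ℝ)| = u - k := abs_of_nonneg (by linarith)
    have h2 : |u - ((k + 1 : ℤ) : ℝ)| = k + 1 - u := by
      push_cast
      rw [abs_sub_comm]
      exact abs_of_nonneg (by linarith)
    rw [h1, h2, max_eq_right (by linarith), max_eq_right (by linarith)]
    ring
  · intro x _ hx
    rw [Finset.mem_insert, Finset.mem_singleton, not_or] at hx
    apply max_eq_left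
    rcases lt_or_gt_of_ne hx.1 with h | h
    · have h1 : (x : ℝ) ≤ k - 1 := by exact_mod_cast (by omega : x ≤ k - 1)
      have h2 : u - x ≤ |u - x| := le_abs_self _
      linarith
    · have h1 : (k : ℝ) + 2 ≤ x := by exact_mod_cast (by omega : k + 2 ≤ x)
      have h2 : -(u - x) ≤ |u - x| := neg_le_abs _
      linarith

/-- A weighted mean of quantities at distance `≤ B`. -/
private theorem mean_close52 {m : ℤ} (hm : 1 ≤ m) {u : ℝ} (hu0 : 0 ≤ u) (hu1 : u ≤ m) {f g : ℤ → ℝ}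
    {r B : ℝ} (hr : 0 ≤ r)
    (h : ∀ x ∈ Finset.Icc (0 : ℤ) m, |u - x| < 1 → |f x - g x| ≤ B) :
    |∑ x ∈ Finset.Icc (0 : ℤ) m, f x / r * max 0 (1 - |u - x|) -
      ∑ x ∈ Finset.Icc (0 : ℤ) m, g x / r * max 0 (1 - |u - x|)| ≤ B / r := by
  rw [← Finset.sum_sub_distrib]
  calc |∑ x ∈ Finset.Icc (0 : ℤ) m,
        (f x / r * max 0 (1 - |u - x|) - g x / r * max 0 (1 - |u - x|))|
      ≤ ∑ x ∈ Finset.Icc (0 : ℤ) m,
        |f x / r * max 0 (1 - |u - x|) - g x / r * max 0 (1 - |u - x|)| :=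
          Finset.abs_sum_le_sum_abs _ _
    _ ≤ ∑ x ∈ Finset.Icc (0 : ℤ) m, B / r * max 0 (1 - |u - x|) := by
        refine Finset.sum_le_sum fun x hx => ?_
        rw [← sub_mul, ← sub_div, abs_mul, abs_div, abs_of_nonneg hr,
          abs_of_nonneg (le_max_left 0 (1 - |u - (x : ℝ)|))]
        rcases lt_or_ge |u - (x : ℝ)| 1 with h1 | h1
        · exact mul_le_mul_of_nonneg_right (div_le_div_of_nonneg_right (h x hx h1) hr)
            (le_max_left _ _)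
        · rw [max_eq_left (by linarith), mul_zero, mul_zero]
    _ = B / r := by rw [← Finset.mul_sum, tent_sum52 hm hu0 hu1, mul_one]

theorem topV_mem {V : Finset (ℤ × ℤ)} {x : ℤ} (h : ∃ y ∈ V, y.1 = x) :
    ∃ y ∈ V, y.1 = x ∧ topV V x = y.2 := by
  have hne : ((fun y : ℤ × ℤ => (y.2 : ℝ)) '' {y | y ∈ V ∧ y.1 = x}).Nonempty := by
    obtain ⟨y, hy, hyx⟩ := h
    exact ⟨_, y, ⟨hy, hyx⟩, rfl⟩
  have hfin : ((fun y : ℤ × ℤ => (y.2 : ℝ)) '' {y | y ∈ V ∧ y.1 = x}).Finite :=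
    (V.finite_toSet.subset fun y hy => hy.1).image _
  obtain ⟨y, ⟨hy, hyx⟩, hyt⟩ := hne.csSup_mem hfin
  exact ⟨y, hy, hyx, hyt.symm⟩

theorem topV_near {V : Finset (ℤ × ℤ)} {T : ℝ} (h : Thin V T) {y : ℤ × ℤ} (hy : y ∈ V) :
    |topV V y.1 - y.2| ≤ T := by
  obtain ⟨z, hz, hzx, hzt⟩ := topV_mem (x := y.1) ⟨y, hy, rfl⟩
  rw [hzt]
  exact h z hz y hy hzx

/-- Reflection in the row `0`. -/
theorem thin_neg {V : Finset (ℤ × ℤ)} {T : ℝ} (h : Thin V T) :
    Thin (V.image fun y => (y.1, -y.2)) T := by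
  intro y hy z hz hyz
  obtain ⟨y', hy', rfl⟩ := Finset.mem_image.mp hy
  obtain ⟨z', hz', rfl⟩ := Finset.mem_image.mp hz
  have h1 := h y' hy' z' hz' hyz
  push_cast
  rw [neg_sub_neg, abs_sub_comm]
  exact h1

/-- If the heights of `V` are within `T` of a function `H` which is `8`-Lipschitz, and `V` meets every column, then
`V` is thin and its path is close to `H`. -/
theorem fpath_close {n : ℕ} (hn : 1 ≤ n) {V : Finset (ℤ × ℤ)} {H : ℝ → ℝ} {T : ℝ}
    (hH : ∀ s t : ℝ, |H s - H t| ≤ 8 * |s - t|) (hT : ∀ y ∈ V, |(y.2 : ℝ) - H y.1| ≤ T)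
    (hV : ∀ x ∈ Finset.Icc (0 : ℤ) (2 * n), ∃ y ∈ V, y.1 = x) (s : TI) :
    |fpath n V s - H (n * ((s : ℝ) + 1)) / Real.sqrt n| ≤ (T + 8) / Real.sqrt n := by
  have hm : (1 : ℤ) ≤ 2 * (n : ℤ) := by omega
  have hn0 : (0 : ℝ) ≤ n := Nat.cast_nonneg n
  have hs0 : (-1 : ℝ) ≤ s := s.2.1
  have hs1 : (s : ℝ) ≤ 1 := s.2.2
  have hu0 : 0 ≤ (n : ℝ) * ((s : ℝ) + 1) := mul_nonneg hn0 (by linarith)
  have hu1 : (n : ℝ) * ((s : ℝ) + 1) ≤ ((2 * (n : ℤ) : ℤ) : ℝ) := by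
    push_cast
    nlinarith
  have h1 := mean_close52 hm hu0 hu1 (f := topV V) (g := fun _ => H (n * ((s : ℝ) + 1)))
    (B := T + 8) (Real.sqrt_nonneg (n : ℝ)) (by
      intro x hx hlt
      obtain ⟨y, hy, hyx, hyt⟩ := topV_mem (hV x hx)
      have h2 := hT y hy
      have h3 := hH x (n * ((s : ℝ) + 1))
      rw [abs_sub_comm] at hlt
      rw [hyt]
      rw [hyx] at h2
      have h4 : (y.2 : ℝ) - H (n * ((s : ℝ) + 1)) = (y.2 - H x) + (H x - H (n * ((s : ℝ) + 1))) := by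
        ring
      rw [h4]
      refine (abs_add_le _ _).trans ?_
      linarith)
  have h5 : ∑ x ∈ Finset.Icc (0 : ℤ) (2 * (n : ℤ)), H (n * ((s : ℝ) + 1)) / Real.sqrt n *
      max 0 (1 - |n * ((s : ℝ) + 1) - x|) = H (n * ((s : ℝ) + 1)) / Real.sqrt n := by
    rw [← Finset.mul_sum, tent_sum52 hm hu0 hu1, mul_one]
  simp only [h5] at h1
  exact h1

theorem thin_close {V : Finset (ℤ × ℤ)} {H : ℝ → ℝ} {T : ℝ} (hT : ∀ y ∈ V, |(y.2 : ℝ) - H y.1| ≤ T) :
    Thin V (2 * T) := by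
  intro y hy z hz hyz
  have h1 := hT y hy
  have h2 := hT z hz
  rw [← hyz, abs_sub_comm] at h2
  have h3 : (y.2 : ℝ) - z.2 = (y.2 - H y.1) + (H y.1 - z.2) := by ring
  rw [h3]
  refine (abs_add_le _ _).trans ?_
  linarith

/-- The rescaled interface is close to the path of the cluster. -/
theorem path_close {k n : ℕ} (hn : 1 ≤ n) {ω : Conf k} {a : Finset Pool.Helper49.FK.Edge}
    (h : Compat n ω a) {T : ℝ} (hT : Thin (Pool.Helper49.FK.clu (Dn n) a (0, 0)) T) (s : TI) :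
    |path n ω s - fpath n (Pool.Helper49.FK.clu (Dn n) a (0, 0)) s| ≤ (T + 1) / Real.sqrt n := by
  have hm : (1 : ℤ) ≤ 2 * (n : ℤ) := by omega
  have hn0 : (0 : ℝ) ≤ n := Nat.cast_nonneg n
  have hs0 : (-1 : ℝ) ≤ s := s.2.1
  have hs1 : (s : ℝ) ≤ 1 := s.2.2
  have hu0 : 0 ≤ (n : ℝ) * ((s : ℝ) + 1) := mul_nonneg hn0 (by linarith)
  have hu1 : (n : ℝ) * ((s : ℝ) + 1) ≤ ((2 * (n : ℤ) : ℤ) : ℝ) := by
    push_cast
    nlinarith
  have h0 : path n ω s = ∑ x ∈ Finset.Icc (0 : ℤ) (2 * (n : ℤ)),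
      Gp ω ((x : ℝ) - n) / Real.sqrt n * max 0 (1 - |n * ((s : ℝ) + 1) - x|) := by
    change ∑ x ∈ Finset.Icc (-(n : ℤ)) n, Gp ω x / Real.sqrt n * max 0 (1 - |n * (s : ℝ) - x|) = _
    refine Finset.sum_bij (fun x _ => x + n) ?_ ?_ ?_ ?_
    · intro x hx
      rw [Finset.mem_Icc] at hx ⊢
      omega
    · intro x _ y _ hxy
      exact add_right_cancel hxy
    · intro y hy
      rw [Finset.mem_Icc] at hy
      exact ⟨y - n, Finset.mem_Icc.mpr (by omega), by ring⟩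
    · intro x _
      have h1 : (((x + n : ℤ) : ℝ) - n) = x := by
        push_cast
        ring
      have h2 : (n : ℝ) * ((s : ℝ) + 1) - ((x + n : ℤ) : ℝ) = n * (s : ℝ) - x := by
        push_cast
        ring
      rw [h1, h2]
  rw [h0]
  refine mean_close52 hm hu0 hu1 (f := fun x => Gp ω ((x : ℝ) - n))
    (g := topV (Pool.Helper49.FK.clu (Dn n) a (0, 0))) (B := T + 1) (Real.sqrt_nonneg (n : ℝ)) ?_
  intro x hx _
  rw [Finset.mem_Icc] at hx
  obtain ⟨K, hK, hG, hconn⟩ := gp_geo hn h (x := x - n) (by rw [abs_le]; omega)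
  have hcast : (((x - n : ℤ)) : ℝ) = (x : ℝ) - n := by push_cast; ring
  rw [hcast] at hG
  have hxx : x - n + n = x := by ring
  rw [hxx] at hconn
  rw [abs_le] at hK
  have hmem : (x, K) ∈ Pool.Helper49.FK.clu (Dn n) a (0, 0) := by
    classical
    unfold Pool.Helper49.FK.clu Dn
    refine Finset.mem_filter.mpr ⟨?_, hconn⟩
    rw [Finset.mem_product, Finset.mem_Icc, Finset.mem_Icc]
    exact ⟨⟨hx.1, by simp only; omega⟩, hK⟩
  have h1 := topV_near hT hmem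
  simp only at h1 ⊢
  rw [hG]
  have h4 : (K : ℝ) + 1 / 2 - topV (Pool.Helper49.FK.clu (Dn n) a (0, 0)) x =
      -(topV (Pool.Helper49.FK.clu (Dn n) a (0, 0)) x - K) + 1 / 2 := by ring
  rw [h4]
  refine (abs_add_le _ _).trans ?_
  rw [abs_neg, abs_of_pos (by norm_num : (0 : ℝ) < 1 / 2)]
  linarith

end Pool.Agent.Helper49.OZ
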