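import Mathlib
import Pool.Agent.Helper49.OZ.Chain
import Pool.Agent.Helper18.WK.Main

/-!
The final statement of part L4 (helper18): chains of iid pieces killed below the height `1` (kernel `K`), with
bounded starting and final heights, rescale to the Brownian excursion.
-/

open MeasureTheory
open scoped ENNReal

namespace Pool.Agent.Helper49.OZ

open Pool.Agent.Helper49.FL (TI IsExc)
open Pool.Agent.Helper18.WK

/-- The conditions on the kernel of the pieces in the rows `≥ 1`. -/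
structure KerOk (F : Law) (K : Ker) : Prop where
  le : ∀ x l z, K x l z ≤ K0 F x l z
  zero : ∀ x l z, x < 1 ∨ z < 1 → K x l z = 0
  symm : ∀ x l z, K x l z = K z l x
  flat : ∀ x, 1 ≤ x → K x 1 x = ENNReal.ofReal (F.f 1 0)
  up : ∃ c : ℝ, 0 < c ∧ ∀ x, 1 ≤ x → ENNReal.ofReal c ≤ K x F.l0 x ∧ ENNReal.ofReal c ≤ K x F.l0 (x + 1)
  near : ∃ B a : ℝ, 0 < a ∧ ∀ x l z, 1 ≤ x → 1 ≤ z →
    ENNReal.ofReal (F.f l (z - x) - B * Real.exp (-a * (x + l + |(z : ℝ) - x|))) ≤ K x l z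

theorem kerOk_above {F : Law} {K : Ker} (hK : KerOk F K) :
    ∃ κ Bt r : ℝ, 0 < κ ∧ 0 < Bt ∧ 0 < r ∧ ∀ cap : ℕ, Above F κ Bt r cap K := by
  obtain ⟨c, hc, hup⟩ := hK.up
  obtain ⟨B, a, ha, hnear⟩ := hK.near
  refine ⟨c, |B| + 1, a, hc, by positivity, ha, fun cap => ⟨?_, ?_, ?_, ?_⟩⟩
  · intro x l z
    by_cases h : 1 ≤ x ∧ 1 ≤ z
    · have h1 := hK.le x l z
      unfold Kp
      rw [if_pos h]
      exact h1
    · rw [hK.zero x l z (by omega)]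
      exact zero_le
  · intro x l z hx _ hz _
    set e1 := Real.exp (-a * (x + l + |(z : ℝ) - x|)) with he1
    set e2 := Real.exp (-a * ((cap - x) + l + |(z : ℝ) - x|)) with he2
    have h1 : ENNReal.ofReal (F.f l (z - x)) ≤ ENNReal.ofReal (F.f l (z - x) - B * e1) + ENNReal.ofReal (B * e1) := by
      have h2 : F.f l (z - x) = (F.f l (z - x) - B * e1) + B * e1 := by ring
      conv_lhs => rw [h2]
      exact ENNReal.ofReal_add_le
    refine h1.trans (add_le_add (hnear x l z hx hz) (ENNReal.ofReal_le_ofReal ?_))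
    have h3 : 0 < e1 := Real.exp_pos _
    have h4 : 0 < e2 := Real.exp_pos _
    have h5 : B ≤ |B| := le_abs_self B
    have h6 : 0 ≤ |B| := abs_nonneg B
    nlinarith [mul_le_mul_of_nonneg_right h5 h3.le, mul_nonneg h6 h4.le]
  · intro x hx _
    exact (hup x hx).2
  · intro x hx _
    rw [hK.symm]
    exact (hup x hx).2

theorem kerok_low {F : Law} {K : Ker} (hK : KerOk F K) : ∃ (c : ℝ) (n₀ : ℕ), 0 < c ∧ ∀ n, n₀ ≤ n →
    ENNReal.ofReal (c / (n * Real.sqrt n)) ≤ Pool.Agent.Helper18.WK.G K n 1 1 := by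
  obtain ⟨κ, Bt, r, hκ, hB, hr, hA⟩ := kerOk_above hK
  obtain ⟨n₀, c, hc, h⟩ := above_low F hκ hB hr one_pos 1
  exact ⟨c, n₀, hc, fun n hn => h n hn n K (hA n) (by simp) 1 1 le_rfl (by simp) le_rfl (by simp)⟩

open Classical in
theorem walk_main (F : Law) (K : Ker) (hK : KerOk F K) :
    ∃ (P : Measure C(TI, ℝ)) (κ : ℝ), IsExc P ∧ 0 < κ ∧
      (∀ G : C(TI, ℝ) → ℝ, (∃ L, LipschitzWith L G) → (∀ f, 0 ≤ G f ∧ G f ≤ 1) →
        ∀ (U : ℕ) (ε : ℝ), 0 < ε → ∃ n₀ : ℕ, ∀ n, n₀ ≤ n → ∀ (u x y : ℤ) (m : ℕ), 0 ≤ u → u ≤ U →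
          |(m : ℤ) + u - 2 * n| ≤ U → 1 ≤ x → x ≤ U → 1 ≤ y → y ≤ U →
          |(csum K m x y (fun c => ENNReal.ofReal (G (cpath n u x c)))).toReal -
              (Pool.Agent.Helper18.WK.G K m x y).toReal * ∫ f, G (κ • f) ∂P| ≤ ε * (Pool.Agent.Helper18.WK.G K m x y).toReal) ∧
      ∀ (U : ℕ) (ε : ℝ), 0 < ε → ∃ n₀ : ℕ, ∀ n, n₀ ≤ n → ∀ (u x y : ℤ) (m : ℕ), 0 ≤ u → u ≤ U →
        |(m : ℤ) + u - 2 * n| ≤ U → 1 ≤ x → x ≤ U → 1 ≤ y → y ≤ U →
        csum K m x y (fun c => if ∃ p ∈ c, (n : ℝ) < (p.1 : ℝ) ^ 4 then 1 else 0) ≤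
            ENNReal.ofReal ε * Pool.Agent.Helper18.WK.G K m x y ∧
          Pool.Agent.Helper18.WK.G K m x y ≠ ∞ := by
  obtain ⟨κ, Bt, r, hκ, hB, hr, hA⟩ := kerOk_above hK
  obtain ⟨P, hP, hlim⟩ := walk_lim F hκ hB hr hA
  have hK0 : ∀ x z, K x 0 z = 0 := fun x z => above_zero (hA 0) x z
  have hmu : ∀ {U n m : ℕ} {u : ℤ}, 0 ≤ u → u ≤ U → |(m : ℤ) + u - 2 * n| ≤ U →
      |(m : ℝ) - 2 * n| ≤ ((2 * U : ℕ) : ℝ) := by
    intro U n m u hu hu' hm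
    have h1 : |(m : ℤ) - 2 * n| ≤ ((2 * U : ℕ) : ℤ) := by
      rw [abs_le] at hm ⊢
      push_cast
      constructor <;> linarith [hm.1, hm.2]
    exact_mod_cast h1
  refine ⟨P, Real.sqrt (s2 F), hP, Real.sqrt_pos.2 (s2_pos F), ?_, ?_⟩
  · rintro G ⟨L, hL⟩ hG U ε hε
    obtain ⟨n₀, h⟩ := hlim G hL.continuous hG (2 * U) ε hε
    refine ⟨n₀, fun n hn u x y m hu hu' hm hx hx' hy hy' => ?_⟩
    rw [csum_eq K hK0]
    exact h n hn m u x y (hmu hu hu' hm) hu (by push_cast; linarith) hx (by push_cast; linarith) hy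
      (by push_cast; linarith)
  · intro U ε hε
    obtain ⟨d, η, n₀, -, -, h⟩ := path_good F hκ hB hr hA (2 * U) (ε := 1) (t := ε) one_pos hε
    refine ⟨n₀, fun n hn u x y m hu hu' hm hx hx' hy hy' => ⟨?_, ?_⟩⟩
    · rw [csum_eq K hK0]
      refine le_trans (sc_mono (fun _ _ _ => le_rfl) (fun c => ?_) m x y)
        (h n hn m x y (hmu hu hu' hm) hx (by push_cast; linarith) hy (by push_cast; linarith))
      by_cases h1 : ∃ p ∈ c, (n : ℝ) < (p.1 : ℝ) ^ 4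
      · rw [if_pos h1, if_neg]
        rintro ⟨h2, -⟩
        obtain ⟨p, hp, hp'⟩ := h1
        exact absurd (h2 p hp).2 (not_le.2 hp')
      · rw [if_neg h1]
        exact zero_le
    · exact ne_top_of_le_ne_top ENNReal.one_ne_top (g_le_one F hK.le m x y)

end Pool.Agent.Helper49.OZ
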