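import Pool.Agent.Helper49.OZ.SubDef
import Pool.Agent.Helper49.OZ.WalkMain
import Pool.Agent.Helper83.OZ.Sb3
import Pool.Agent.Helper95.OZ.Ker

/-!
The final statement of part L5 (helper83): the sub-measure. Proof: `Pool.Helper83.OZ.sub_aux` with the renewal structure
`Pool.Helper95.OZ.ren_full` and the lower bound `kerok_low` for the chains in the rows `≥ 1`.
-/

namespace Pool.Agent.Helper49.OZ

open Pool.Helper49.FK

theorem sub_measure {q ρ ρ' : ℝ} (hq : 1 ≤ q) (h0 : 0 < ρ') (h1 : ρ' < ρ) (hE : ExpW q ρ) {ε : ℝ}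
    (hε : 0 < ε) : ∃ U n₀ : ℕ, ∀ n, n₀ ≤ n → ∃ I a, SubM q ρ ρ' ε U n I a := by
  obtain ⟨F, K, hR, hK, hOk, hF, hFG⟩ := Pool.Helper95.OZ.ren_full hq (h0.trans h1) hE
  exact Pool.Helper83.OZ.sub_aux hq h0 h1 hE (fun a b γ hab hγ => hFG a b hab γ hγ) F hF K hR hK (kerok_low hOk) hε

end Pool.Agent.Helper49.OZ
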