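import Mathlib
import Pool.Agent.Helper49.OZ.ChSum
import Pool.Agent.Helper49.OZ.FkPath
import Pool.Agent.Helper49.OZ.Sub

/-!
Block AS-7: the path of a cluster made of a left part, a diamond graph and a right part is close to the path of a
chain of its cone points.

Let `w = join l (join γ r)`, `H t = hgt c.2 ch (t - c.1)`, `T = 24 m + 8 U`.
* All points of `pts c ch` are cone points of `w.1`: they are cone points of `γ.1`, the vertices of `l` are in the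
  backward cone of `c` (`mem_Lf`), those of `r` in the forward cone of `c'` (`mem_Rt`), and the points of the chain are
  in the forward cone of `c` and in the backward cone of `c'` (`γ ∈ Dm c c'`, `mem_Dm`); `Y_trans`.
* By `along_close` for `w.1`: `|y.2 - H y.1| ≤ T` for all `y ∈ w.1` (columns between `0` and `2n + 1`, `c.1 ≤ U`,
  `2n + 1 - c'.1 ≤ U`).
* `H` is `8`-Lipschitz (`hgt_lip`, `steep_of_cp`). Every column between `0` and `2n + 1` contains a vertex of `w` (`w` is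
  connected and contains `(0, 0)` and `(2n + 1, 0)`; adjacent vertices are in equal or neighbouring columns).
* So `thin_close`, `fpath_close` with `cpath n c.1 c.2 ch s = H (n (s + 1)) / √n`.
* The mirror image: the heights are negated, `|(-y.2) - (-H y.1)| ≤ T`: the same with `-H`.
* `inner_sub`: the rows of `γ` are `≥ 1` and at most `H y.1 + 24 m` with `y.1 ∈ [0, 2n + 1]`; `H (y.1) ≤ ‖cpath‖ √n + 8`.
-/

namespace Pool.Agent.Helper49.OZ

open Pool.Helper49.FK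
open Pool.Helper17.OZ (Y CP)
open Pool.Helper83.OZ (Gr Dm Cl Lf Rt join)
open Pool.Agent.Helper49.QP (Dn Rn)

variable {n U m : ℕ} {c c' : ℤ × ℤ} {l r γ : Gr} {ch : List (ℕ × ℤ)}

/-- The hypotheses. -/
structure Inn (n U m : ℕ) (c c' : ℤ × ℤ) (l r γ : Gr) (ch : List (ℕ × ℤ)) : Prop where
  pos : 1 ≤ n
  left : l ∈ Lf (Dn n) (0, 0) c
  right : r ∈ Rt (Dn n) c' (Rn n)
  cU : c.1 ≤ U
  cU' : 2 * (n : ℤ) + 1 - U ≤ c'.1
  mem : γ ∈ DmU c c'
  one : ∀ p ∈ ch, 1 ≤ p.1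
  len : c'.1 = c.1 + len ch
  fin : fin c.2 ch = c'.2
  cp : ∀ s ∈ pts c ch, CP γ.1 s
  le : ∀ p ∈ ch, p.1 ≤ m

/-- a connected graph meets every column between two of its vertices -/
private theorem column53 {V : Finset (ℤ × ℤ)} {C : Finset Edge} (h : IsClu V C) {a b : ℤ × ℤ}
    (ha : a ∈ V) (hb : b ∈ V) {x : ℤ} (h1 : a.1 ≤ x) (h2 : x ≤ b.1) : ∃ y ∈ V, y.1 = x := by
  by_contra hno
  push Not at hno
  have ha1 : a.1 < x := lt_of_le_of_ne h1 (hno a ha)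
  have key : b ∈ {y : ℤ × ℤ | y.1 < x} := by
    refine Conn.induct (S := {y : ℤ × ℤ | y.1 < x}) (h.2 a ha b hb) ha1 fun e he => ?_
    have h3 := mem_edges.1 (h.1 he)
    have h4 := hno e.1 h3.1
    have h5 := hno (tip e) h3.2
    have h6 := Pool.Helper83.OZ.tip_col e
    change e.1.1 < x ↔ (tip e).1 < x
    omega
  have key' : b.1 < x := key
  omega

private theorem mem_pts53 (u : ℤ × ℤ) (d : List (ℕ × ℤ)) : u ∈ pts u d := by
  cases d with
  | nil => exact List.mem_singleton.2 rfl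
  | cons q d => exact List.mem_cons_self

private theorem memD53 (h : Inn n U m c c' l r γ ch) :
    IsClu γ.1 γ.2 ∧ (∀ y ∈ γ.1, Y (y - c)) ∧ (∀ y ∈ γ.1, Y (c' - y)) ∧ c ∈ γ.1 ∧ c' ∈ γ.1 ∧
      ∀ y ∈ γ.1, 1 ≤ y.2 := by
  classical
  have h1 := h.mem
  unfold DmU at h1
  rw [Finset.mem_filter, Pool.Helper83.OZ.mem_Dm] at h1
  exact ⟨h1.1.1, h1.1.2.1, h1.1.2.2.1, h1.1.2.2.2.1, h1.1.2.2.2.2, h1.2⟩

private theorem mem_w53 {y : ℤ × ℤ} :
    y ∈ (join l (join γ r)).1 ↔ y ∈ l.1 ∨ y ∈ γ.1 ∨ y ∈ r.1 := by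
  change y ∈ l.1 ∪ (γ.1 ∪ r.1) ↔ _
  rw [Finset.mem_union, Finset.mem_union]

private theorem cp_w53 (h : Inn n U m c c' l r γ ch) : ∀ s ∈ pts c ch, CP (join l (join γ r)).1 s := by
  intro s hs
  obtain ⟨-, hb, hd, -, -, -⟩ := memD53 h
  have hl := Pool.Helper83.OZ.mem_Lf.1 h.left
  have hr := Pool.Helper83.OZ.mem_Rt.1 h.right
  have h1 := h.cp s hs
  refine ⟨mem_w53.2 (Or.inr (Or.inl h1.1)), fun y hy => ?_⟩
  rcases mem_w53.1 hy with h2 | h2 | h2
  · exact Or.inr (Pool.Helper83.OZ.Y_trans (hl.2.2.2.2 y h2) (hb s h1.1))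
  · exact h1.2 y h2
  · exact Or.inl (Pool.Helper83.OZ.Y_trans (hd s h1.1) (hr.2.2.2.2 y h2))

private theorem box_w53 (h : Inn n U m c c' l r γ ch) {y : ℤ × ℤ}
    (hy : y ∈ (join l (join γ r)).1) : 0 ≤ y.1 ∧ y.1 ≤ 2 * (n : ℤ) + 1 := by
  obtain ⟨-, hb, hd, -, -, -⟩ := memD53 h
  have hl := Pool.Helper83.OZ.mem_Lf.1 h.left
  have hr := Pool.Helper83.OZ.mem_Rt.1 h.right
  have hD : ∀ z ∈ Dn n, 0 ≤ z.1 ∧ z.1 ≤ 2 * (n : ℤ) + 1 := by
    intro z hz
    unfold Dn at hz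
    rw [Finset.mem_product, Finset.mem_Icc] at hz
    exact hz.1
  rcases mem_w53.1 hy with h2 | h2 | h2
  · exact hD y (hl.1 h2)
  · have h3 := hD c (hl.1 hl.2.2.2.1)
    have h4 := hD c' (hr.1 hr.2.2.1)
    have h5 := Pool.Helper83.OZ.Y_le (hb y h2)
    have h6 := Pool.Helper83.OZ.Y_le (hd y h2)
    omega
  · exact hD y (hr.1 h2)

private theorem near_w53 (h : Inn n U m c c' l r γ ch) : ∀ y ∈ (join l (join γ r)).1,
    |(y.2 : ℝ) - hgt c.2 ch (y.1 - c.1)| ≤ 24 * m + 8 * U := by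
  intro y hy
  have h1 := along_close h.one (cp_w53 h) h.le hy
  have h2 := box_w53 h hy
  have h3 : (c'.1 : ℝ) = c.1 + len ch := by exact_mod_cast h.len
  rw [← h3] at h1
  have h4 : (0 : ℝ) ≤ y.1 := by exact_mod_cast h2.1
  have h5 : (y.1 : ℝ) ≤ 2 * n + 1 := by exact_mod_cast h2.2
  have h6 : (c.1 : ℝ) ≤ U := by exact_mod_cast h.cU
  have h7 : 2 * (n : ℝ) + 1 - U ≤ c'.1 := by exact_mod_cast h.cU'
  have h8 : (0 : ℝ) ≤ U := Nat.cast_nonneg _
  have h9 : (c.1 : ℝ) ≤ c'.1 := by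
    rw [h3]
    have : (0 : ℝ) ≤ len ch := Nat.cast_nonneg _
    linarith
  rcases le_total (c.1 : ℝ) y.1 with h10 | h10
  · rw [max_eq_left (by linarith : (c.1 : ℝ) - y.1 ≤ 0)] at h1
    have h11 : max 0 ((y.1 : ℝ) - c'.1) ≤ U := max_le h8 (by linarith)
    linarith
  · rw [max_eq_left (by linarith : (y.1 : ℝ) - c'.1 ≤ 0)] at h1
    have h11 : max 0 ((c.1 : ℝ) - y.1) ≤ U := max_le h8 (by linarith)
    linarith

private theorem lip_w53 (h : Inn n U m c c' l r γ ch) (s t : ℝ) :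
    |hgt c.2 ch (s - c.1) - hgt c.2 ch (t - c.1)| ≤ 8 * |s - t| := by
  have h1 := hgt_lip h.one (steep_of_cp h.one h.cp) (s - c.1) (t - c.1)
  rwa [sub_sub_sub_cancel_right] at h1

private theorem col_w53 (h : Inn n U m c c' l r γ ch) :
    ∀ x ∈ Finset.Icc (0 : ℤ) (2 * n), ∃ y ∈ (join l (join γ r)).1, y.1 = x := by
  intro x hx
  rw [Finset.mem_Icc] at hx
  obtain ⟨hg, -, -, hc, hc', -⟩ := memD53 h
  have hl := Pool.Helper83.OZ.mem_Lf.1 h.left
  have hr := Pool.Helper83.OZ.mem_Rt.1 h.right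
  rcases le_total x c.1 with h1 | h1
  · obtain ⟨y, hy, hyx⟩ := column53 hl.2.1 hl.2.2.1 hl.2.2.2.1 hx.1 h1
    exact ⟨y, mem_w53.2 (Or.inl hy), hyx⟩
  · rcases le_total x c'.1 with h2 | h2
    · obtain ⟨y, hy, hyx⟩ := column53 hg hc hc' h1 h2
      exact ⟨y, mem_w53.2 (Or.inr (Or.inl hy)), hyx⟩
    · have h3 : x ≤ (Rn n).1 := by
        unfold Rn
        simp only
        omega
      obtain ⟨y, hy, hyx⟩ := column53 hr.2.1 hr.2.2.1 hr.2.2.2.1 h2 h3
      exact ⟨y, mem_w53.2 (Or.inr (Or.inr hy)), hyx⟩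

private theorem mir_near53 {V : Finset (ℤ × ℤ)} {H : ℝ → ℝ} {T : ℝ}
    (hT : ∀ y ∈ V, |(y.2 : ℝ) - H y.1| ≤ T) :
    ∀ y : ℤ × ℤ, y ∈ (V.image fun y : ℤ × ℤ => (y.1, -y.2)) →
      |(y.2 : ℝ) - (fun t : ℝ => -H t) (y.1 : ℝ)| ≤ T := by
  intro y hy
  obtain ⟨z, hz, rfl⟩ := Finset.mem_image.1 hy
  have h1 := hT z hz
  simp only [Int.cast_neg]
  rw [neg_sub_neg, abs_sub_comm]
  exact h1

theorem Inn.thin (h : Inn n U m c c' l r γ ch) :
    Thin (join l (join γ r)).1 (2 * (24 * m + 8 * U)) ∧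
      Thin (mir (join l (join γ r))).1 (2 * (24 * m + 8 * U)) := by
  obtain ⟨H, hHd⟩ : ∃ H : ℝ → ℝ, H = fun t : ℝ => hgt c.2 ch (t - c.1) := ⟨_, rfl⟩
  have h1 : ∀ y ∈ (join l (join γ r)).1, |(y.2 : ℝ) - H y.1| ≤ 24 * m + 8 * U := by
    rw [hHd]
    exact near_w53 h
  have h2 : ∀ y ∈ (mir (join l (join γ r))).1,
      |(y.2 : ℝ) - (fun t : ℝ => -H t) (y.1 : ℝ)| ≤ 24 * m + 8 * U := fun y hy => mir_near53 h1 y hy
  exact ⟨thin_close h1, thin_close (H := fun t : ℝ => -H t) h2⟩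

theorem Inn.close (h : Inn n U m c c' l r γ ch) :
    ‖fpath n (join l (join γ r)).1 - cpath n c.1 c.2 ch‖ ≤ (24 * m + 8 * U + 8) / Real.sqrt n ∧
      ‖fpath n (mir (join l (join γ r))).1 + cpath n c.1 c.2 ch‖ ≤
        (24 * m + 8 * U + 8) / Real.sqrt n := by
  obtain ⟨H, hHd⟩ : ∃ H : ℝ → ℝ, H = fun t : ℝ => hgt c.2 ch (t - c.1) := ⟨_, rfl⟩
  have h1 : ∀ y ∈ (join l (join γ r)).1, |(y.2 : ℝ) - H y.1| ≤ 24 * m + 8 * U := by
    rw [hHd]
    exact near_w53 h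
  have hL : ∀ s t : ℝ, |H s - H t| ≤ 8 * |s - t| := by
    rw [hHd]
    exact lip_w53 h
  have hL' : ∀ s t : ℝ, |(fun t => -H t) s - (fun t => -H t) t| ≤ 8 * |s - t| := by
    intro s t
    simp only
    rw [neg_sub_neg, abs_sub_comm]
    exact hL s t
  have h0 : (0 : ℝ) ≤ (24 * m + 8 * U + 8) / Real.sqrt n := by positivity
  have hcp : ∀ s : FL.TI, cpath n c.1 c.2 ch s = H (n * ((s : ℝ) + 1)) / Real.sqrt n := by
    intro s
    rw [hHd]
    rfl
  constructor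
  · rw [ContinuousMap.norm_le _ h0]
    intro s
    rw [Real.norm_eq_abs, ContinuousMap.sub_apply, hcp]
    exact fpath_close h.pos hL h1 (col_w53 h) s
  · rw [ContinuousMap.norm_le _ h0]
    intro s
    have h2 := fpath_close h.pos hL' (mir_near53 h1) (fun x hx => by
      obtain ⟨y, hy, hyx⟩ := col_w53 h x hx
      exact ⟨(y.1, -y.2), Finset.mem_image.2 ⟨y, hy, rfl⟩, hyx⟩) s
    rw [Real.norm_eq_abs, ContinuousMap.add_apply, hcp]
    simp only [neg_div, sub_neg_eq_add] at h2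
    exact h2

theorem Inn.sub (h : Inn n U m c c' l r γ ch)
    (hb : ‖cpath n c.1 c.2 ch‖ * Real.sqrt n + 24 * m + 8 ≤ n) : γ.1 ⊆ Dn n := by
  intro y hy
  obtain ⟨-, hfw, hbw, -, -, hrow⟩ := memD53 h
  have hbox := box_w53 h (mem_w53.2 (Or.inr (Or.inl hy)))
  have h1 := along_close h.one h.cp h.le hy
  have h3 : (c'.1 : ℝ) = c.1 + Pool.Agent.Helper49.OZ.len ch := by exact_mod_cast h.len
  rw [← h3] at h1
  have h4 : (c.1 : ℝ) ≤ y.1 := by exact_mod_cast Pool.Helper83.OZ.Y_le (hfw y hy)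
  have h5 : (y.1 : ℝ) ≤ c'.1 := by exact_mod_cast Pool.Helper83.OZ.Y_le (hbw y hy)
  rw [max_eq_left (by linarith : (c.1 : ℝ) - y.1 ≤ 0),
    max_eq_left (by linarith : (y.1 : ℝ) - c'.1 ≤ 0), mul_zero, add_zero, add_zero] at h1
  have h6 := (abs_le.1 h1).2
  have hn : (0 : ℝ) < n := by exact_mod_cast h.pos
  have hsq : 0 < Real.sqrt n := Real.sqrt_pos.2 hn
  -- the heights at the abscissas of `[0, 2n]`
  have hH : ∀ t : ℝ, 0 ≤ t → t ≤ 2 * n →
      hgt c.2 ch (t - c.1) ≤ ‖cpath n c.1 c.2 ch‖ * Real.sqrt n := by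
    intro t ht0 ht1
    have hs : t / n - 1 ∈ Set.Icc (-1 : ℝ) 1 := by
      constructor
      · have : 0 ≤ t / n := div_nonneg ht0 hn.le
        linarith
      · have : t / n ≤ 2 := by
          rw [div_le_iff₀ hn]
          exact ht1
        linarith
    have h7 := (cpath n c.1 c.2 ch).norm_coe_le_norm ⟨t / n - 1, hs⟩
    have h8 : cpath n c.1 c.2 ch ⟨t / n - 1, hs⟩ = hgt c.2 ch (t - c.1) / Real.sqrt n := by
      change hgt c.2 ch (n * ((t / n - 1 : ℝ) + 1) - c.1) / Real.sqrt n = _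
      have : (n : ℝ) * ((t / n - 1 : ℝ) + 1) = t := by
        field_simp
        ring
      rw [this]
    rw [h8, Real.norm_eq_abs] at h7
    have h9 := (le_abs_self _).trans h7
    rwa [div_le_iff₀ hsq] at h9
  have h10 : hgt c.2 ch (y.1 - c.1) ≤ ‖cpath n c.1 c.2 ch‖ * Real.sqrt n + 8 := by
    have h11 : (0 : ℝ) ≤ y.1 := by exact_mod_cast hbox.1
    have h12 : (y.1 : ℝ) ≤ 2 * n + 1 := by exact_mod_cast hbox.2
    rcases le_total (y.1 : ℝ) (2 * n) with h13 | h13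
    · have := hH y.1 h11 h13
      linarith
    · have h14 := hH (2 * n) (by linarith) le_rfl
      have h15 := lip_w53 h y.1 (2 * n)
      have h16 : |(y.1 : ℝ) - 2 * n| ≤ 1 := by
        rw [abs_of_nonneg (by linarith)]
        linarith
      have h17 := (abs_le.1 h15).2
      linarith
  have h18 : (y.2 : ℝ) ≤ n := by linarith
  have h19 : y.2 ≤ n := by exact_mod_cast h18
  have h20 := hrow y hy
  unfold Dn
  rw [Finset.mem_product, Finset.mem_Icc, Finset.mem_Icc]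
  refine ⟨hbox, ?_, h19⟩
  omega

end Pool.Agent.Helper49.OZ
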