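import Mathlib
import Pool.Agent.Helper49.OZ.ChSum
import Pool.Agent.Helper49.OZ.WalkMain
import Pool.Agent.Helper49.FK.Exp
import Pool.Agent.Helper17.OZ.Defs
import Pool.Agent.Helper95.OZ.Ker

/-!
The final statement of part L3 (helper95): the renewal structure of the homogeneous model.
-/

namespace Pool.Agent.Helper49.OZ

open Pool.Helper49.FK (ExpW)
open Pool.Helper17.OZ (tau)
open Pool.Helper83.OZ (Gr W1)
open Pool.Agent.Helper18.WK

theorem ren_ker {q ρ : ℝ} (hq : 1 ≤ q) (hρ : 0 < ρ) (hE : ExpW q ρ) :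
    ∃ (Fk : ℤ × ℤ → ℤ × ℤ → Gr → ℝ) (F : Law) (K : Ker),
      Ren (W1 q ρ) Fk ∧ IsKer K Fk (tau q ρ) ∧ KerOk F K := by
  obtain ⟨F, K, h1, h2, h3, _, _⟩ := Pool.Helper95.OZ.ren_full hq hρ hE
  exact ⟨Pool.Helper95.OZ.FG q ρ, F, K, h1, h2, h3⟩

end Pool.Agent.Helper49.OZ
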