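import Mathlib
import Pool.Agent.Helper49.OZ.Inner
import Pool.Agent.Helper49.OZ.WalkMain
import Pool.Agent.Helper49.OZ.RenKer

/-!
Block AS-8: the contribution of fixed outer parts.

`Φ γ = if Thin γ.1 (ε √n) then G (fpath n γ.1) else 0`.

Proof. Let `L` be a Lipschitz constant of `G`, `H f = G f + G (-f)` (`0 ≤ H ≤ 2`, `2L`-Lipschitz), and
`b f = min 1 (max 0 (‖f‖ - A))` (`1`-Lipschitz, values in `[0, 1]`) with `A` such that `∫ b (κ f) dP ≤ η` (dominated convergence as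
`A → ∞`). Apply the first part of `walk_main` to `H / 2` and to `b`, the second part to the long pieces (`η` small).
Fix `n` large, `c, c', l, r` as in the statement, `mm = (c'.1 - c.1).toNat`, `u = c.1`, `x = c.2`, `y = c'.2`.
For a chain `ch` put `ψ ch = ofReal (H (cpath) - 2 L δ - 2 b (cpath) - 2 long)`, `δ = (24 m + 8 U + 8) / √n` with `m = ⌊n^(1/4)⌋`, `long = 1` if
some piece has `n < p.1 ^ 4`, else `0`. If `γ ∈ DmU c c'` and `ch` is a chain of cone points of `γ` from `c` to `c'`: either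
`ψ ch = 0`, or no piece is long (so all `p.1 ≤ m`) and `b (cpath) < 1`, so `‖cpath‖ ≤ A + 1` and for `n` large `Inn.sub` gives
`γ.1 ⊆ Dn n`, `Inn.thin` gives thinness (`2 (24 m + 8 U) ≤ ε √n`) and `Inn.close` gives
`Φ (join l (join γ r)) + Φ (mir ..) ≥ G (cpath) + G (- cpath) - 2 L δ`. So
`ψ ch ≤ ofReal (if γ.1 ⊆ Dn n then Φ (join ..) + Φ (mir ..) else 0)` and `chain_le` gives
`csum K mm x y ψ ≤ ofReal (exp (τ mm) * ∑ γ ∈ DmN n c c', W1 γ * (Φ .. + Φ ..))`.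
On the other side `csum K mm x y (ofReal ∘ H ∘ cpath) ≤ csum ψ + csum (ofReal (2 L δ)) + csum (ofReal (2 b)) + csum (2 long)`
(`csum_mono`, `csum_add`, `csum_mul`, `csum_one`), so `csum ψ ≥ (∫ H (κ f) dP - C η - 2 L δ) * G K mm x y`, and `G K mm x y` is
`ofReal (exp (τ mm) * ∑ γ ∈ DmU c c', W1 γ)` (`chain_eq`), at least the same sum over `DmN`. If
`∫ H - ...` is negative the claim is trivial. All `W1 ≥ 0` (`Ren.W_nonneg`).
-/

open MeasureTheory
open scoped ENNReal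

namespace Pool.Agent.Helper49.OZ

open Pool.Helper49.FK
open Pool.Helper17.OZ (Y CP tau)
open Pool.Helper83.OZ (Gr Dm Cl Lf Rt join W1)
open Pool.Agent.Helper49.QP (Dn Rn)
open Pool.Agent.Helper49.FL (TI IsExc)

open Classical in
/-- The functional of the cluster. -/
noncomputable def Phi (G : C(TI, ℝ) → ℝ) (ε : ℝ) (n : ℕ) (γ : Gr) : ℝ :=
  if Thin γ.1 (ε * Real.sqrt n) then G (fpath n γ.1) else 0

/-- The truncation of the norm. -/
private noncomputable def bb76 (A : ℕ) (f : C(TI, ℝ)) : ℝ := min 1 (max 0 (‖f‖ - A))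

private theorem bb_cont76 (A : ℕ) : Continuous (bb76 A) := by
  unfold bb76
  fun_prop

private theorem bb_nonneg76 (A : ℕ) (f : C(TI, ℝ)) : 0 ≤ bb76 A f :=
  le_min zero_le_one (le_max_left _ _)

private theorem bb_le_one76 (A : ℕ) (f : C(TI, ℝ)) : bb76 A f ≤ 1 := min_le_left _ _

private theorem bb_lip76 (A : ℕ) : LipschitzWith 1 (bb76 A) := by
  refine LipschitzWith.of_dist_le_mul fun f g => ?_
  rw [Real.dist_eq, NNReal.coe_one, one_mul, dist_eq_norm]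
  have h1 : |bb76 A f - bb76 A g| ≤ |max 0 (‖f‖ - A) - max 0 (‖g‖ - A)| := by
    have h := abs_min_sub_min_le_max 1 (max 0 (‖f‖ - A)) 1 (max 0 (‖g‖ - (A : ℝ)))
    rw [sub_self, abs_zero] at h
    exact h.trans_eq (max_eq_right (abs_nonneg _))
  have h2 : |max 0 (‖f‖ - A) - max 0 (‖g‖ - (A : ℝ))| ≤ |(‖f‖ - A) - (‖g‖ - A)| := by
    have h := abs_max_sub_max_le_max 0 (‖f‖ - (A : ℝ)) 0 (‖g‖ - (A : ℝ))
    rw [sub_self, abs_zero] at h
    exact h.trans_eq (max_eq_right (abs_nonneg _))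
  have h3 : (‖f‖ - A) - (‖g‖ - (A : ℝ)) = ‖f‖ - ‖g‖ := by ring
  rw [h3] at h2
  exact h1.trans (h2.trans (abs_norm_sub_norm_le f g))

private theorem tail76 (P : Measure C(TI, ℝ)) [IsProbabilityMeasure P] (κ : ℝ) {η : ℝ}
    (hη : 0 < η) : ∃ A : ℕ, ∫ f, bb76 A (κ • f) ∂P ≤ η := by
  have h : Filter.Tendsto (fun A : ℕ => ∫ f, bb76 A (κ • f) ∂P) Filter.atTop
      (nhds (∫ _f, (0 : ℝ) ∂P)) := by
    refine tendsto_integral_of_dominated_convergence (fun _ => (1 : ℝ)) ?_ (integrable_const _) ?_ ?_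
    · intro A
      exact ((bb_cont76 A).comp (continuous_const_smul κ)).aestronglyMeasurable
    · intro A
      refine Filter.Eventually.of_forall fun f => ?_
      rw [Real.norm_eq_abs, abs_of_nonneg (bb_nonneg76 A _)]
      exact bb_le_one76 A _
    · refine Filter.Eventually.of_forall fun f => ?_
      refine tendsto_const_nhds.congr' ?_
      filter_upwards [Filter.eventually_ge_atTop ⌈‖κ • f‖⌉₊] with A hA
      have h1 : ‖κ • f‖ ≤ A := (Nat.le_ceil _).trans (by exact_mod_cast hA)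
      unfold bb76
      rw [max_eq_left (by linarith), min_eq_right zero_le_one]
  rw [integral_zero] at h
  obtain ⟨A, hA⟩ := (h.eventually (gt_mem_nhds hη)).exists
  exact ⟨A, hA.le⟩

/-- Fourth roots. -/
private theorem root76 {p n : ℕ} (h : ¬ (n : ℝ) < (p : ℝ) ^ 4) : p ≤ Nat.sqrt (Nat.sqrt n) := by
  rw [not_lt] at h
  have h1 : p ^ 4 ≤ n := by exact_mod_cast h
  rw [Nat.le_sqrt, Nat.le_sqrt]
  calc p * p * (p * p) = p ^ 4 := by ring
    _ ≤ n := h1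

private theorem root_le76 (n : ℕ) :
    ((Nat.sqrt (Nat.sqrt n) : ℕ) : ℝ) ≤ Real.sqrt (Real.sqrt n) := by
  refine (Real.nat_sqrt_le_real_sqrt).trans (Real.sqrt_le_sqrt ?_)
  exact Real.nat_sqrt_le_real_sqrt

private theorem large76 (U : ℕ) (A θ : ℝ) (hθ : 0 < θ) : ∃ n₀ : ℕ, ∀ n : ℕ, n₀ ≤ n →
    24 * ((Nat.sqrt (Nat.sqrt n) : ℕ) : ℝ) + 8 * U + 8 ≤ θ * Real.sqrt n ∧
      A + 2 ≤ Real.sqrt n := by
  have t1 : Filter.Tendsto (fun n : ℕ => Real.sqrt n) Filter.atTop Filter.atTop :=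
    Real.tendsto_sqrt_atTop.comp tendsto_natCast_atTop_atTop
  have t2 : Filter.Tendsto (fun n : ℕ => Real.sqrt (Real.sqrt n)) Filter.atTop Filter.atTop :=
    Real.tendsto_sqrt_atTop.comp t1
  have h := ((t2.eventually_ge_atTop (48 / θ)).and
    (t1.eventually_ge_atTop ((16 * U + 16) / θ))).and (t1.eventually_ge_atTop (A + 2))
  obtain ⟨n₀, hn₀⟩ := Filter.eventually_atTop.1 h
  refine ⟨n₀, fun n hn => ?_⟩
  obtain ⟨⟨h1, h2⟩, h3⟩ := hn₀ n hn
  refine ⟨?_, h3⟩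
  rw [div_le_iff₀ hθ] at h1 h2
  have h4 := root_le76 n
  have h5 : Real.sqrt (Real.sqrt n) * Real.sqrt (Real.sqrt n) = Real.sqrt n :=
    Real.mul_self_sqrt (Real.sqrt_nonneg _)
  have h6 : 0 ≤ Real.sqrt (Real.sqrt n) := Real.sqrt_nonneg _
  have h7 := mul_le_mul_of_nonneg_left h1 h6
  nlinarith

private theorem thin_mono76 {V : Finset (ℤ × ℤ)} {T T' : ℝ} (h : T ≤ T') (hT : Thin V T) :
    Thin V T' := fun y hy z hz e => (hT y hy z hz e).trans h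

private theorem lip_sub76 {G : C(TI, ℝ) → ℝ} {L : NNReal} (hL : LipschitzWith L G) {f g : C(TI, ℝ)}
    {δ : ℝ} (h : ‖f - g‖ ≤ δ) : G g - L * δ ≤ G f := by
  have h1 := hL.dist_le_mul f g
  rw [Real.dist_eq, dist_eq_norm] at h1
  have h2 := mul_le_mul_of_nonneg_left h L.coe_nonneg
  have h3 := neg_abs_le (G f - G g)
  linarith

open Classical in
private theorem chain_bound76 {n U : ℕ} {c c' : ℤ × ℤ} {l r γ : Gr} {ch : List (ℕ × ℤ)}
    {G : C(TI, ℝ) → ℝ} {L : NNReal} (hL : LipschitzWith L G) (hG : ∀ f, 0 ≤ G f ∧ G f ≤ 1)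
    {ε δ : ℝ} {A : ℕ} (hn : 1 ≤ n)
    (hl : l ∈ Lf (Dn n) (0, 0) c) (hr : r ∈ Rt (Dn n) c' (Rn n)) (hcU : c.1 ≤ U)
    (hcU' : 2 * (n : ℤ) + 1 - U ≤ c'.1) (hγ : γ ∈ DmU c c') (hone : ∀ p ∈ ch, 1 ≤ p.1)
    (hlen : c'.1 = c.1 + len ch) (hfin : fin c.2 ch = c'.2) (hcp : ∀ s ∈ pts c ch, CP γ.1 s)
    (hδ : (24 * ((Nat.sqrt (Nat.sqrt n) : ℕ) : ℝ) + 8 * U + 8) ≤ δ * Real.sqrt n)
    (hδ0 : 0 ≤ δ) (hδ1 : δ ≤ 1) (hδε : 2 * δ ≤ ε) (hA : (A : ℝ) + 2 ≤ Real.sqrt n) :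
    ENNReal.ofReal (G (cpath n c.1 c.2 ch) + G (-cpath n c.1 c.2 ch) - 2 * L * δ -
        2 * bb76 A (cpath n c.1 c.2 ch) -
        2 * (if ∃ p ∈ ch, (n : ℝ) < (p.1 : ℝ) ^ 4 then 1 else 0)) ≤
      ENNReal.ofReal (if γ.1 ⊆ Dn n then
        Phi G ε n (join l (join γ r)) + Phi G ε n (mir (join l (join γ r))) else 0) := by
  refine ENNReal.ofReal_le_ofReal_iff'.2 ?_
  have hb0 := bb_nonneg76 A (cpath n c.1 c.2 ch)
  have hg1 := hG (cpath n c.1 c.2 ch)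
  have hg2 := hG (-cpath n c.1 c.2 ch)
  have hLδ : 0 ≤ 2 * (L : ℝ) * δ := by positivity
  by_cases hlong : ∃ p ∈ ch, (n : ℝ) < (p.1 : ℝ) ^ 4
  · right
    rw [if_pos hlong]
    linarith
  rw [if_neg hlong]
  by_cases hbig : (A : ℝ) + 1 ≤ ‖cpath n c.1 c.2 ch‖
  · right
    have h1 : bb76 A (cpath n c.1 c.2 ch) = 1 := by
      unfold bb76
      rw [max_eq_right (by linarith), min_eq_left (by linarith)]
    rw [h1]
    linarith
  left
  rw [not_le] at hbig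
  have hI : Inn n U (Nat.sqrt (Nat.sqrt n)) c c' l r γ ch :=
    { pos := hn
      left := hl
      right := hr
      cU := hcU
      cU' := hcU'
      mem := hγ
      one := hone
      len := hlen
      fin := hfin
      cp := hcp
      le := fun p hp => root76 fun h => hlong ⟨p, hp, h⟩ }
  have hs : 0 < Real.sqrt n := Real.sqrt_pos.2 (by exact_mod_cast hn)
  have hsub : γ.1 ⊆ Dn n := by
    refine hI.sub ?_
    have e1 : Real.sqrt n * Real.sqrt n = n := Real.mul_self_sqrt (Nat.cast_nonneg n)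
    have e2 : ‖cpath n c.1 c.2 ch‖ * Real.sqrt n ≤ (A + 1) * Real.sqrt n :=
      mul_le_mul_of_nonneg_right hbig.le hs.le
    have e3 : δ * Real.sqrt n ≤ 1 * Real.sqrt n := mul_le_mul_of_nonneg_right hδ1 hs.le
    have e4 : (A + 2) * Real.sqrt n ≤ Real.sqrt n * Real.sqrt n :=
      mul_le_mul_of_nonneg_right hA hs.le
    have e5 : (0 : ℝ) ≤ U := Nat.cast_nonneg U
    rw [e1] at e4
    linarith
  rw [if_pos hsub]
  have ht := hI.thin
  have hT : 2 * (24 * ((Nat.sqrt (Nat.sqrt n) : ℕ) : ℝ) + 8 * U) ≤ ε * Real.sqrt n := by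
    have e1 : 2 * δ * Real.sqrt n ≤ ε * Real.sqrt n := mul_le_mul_of_nonneg_right hδε hs.le
    linarith
  have hδ' : (24 * ((Nat.sqrt (Nat.sqrt n) : ℕ) : ℝ) + 8 * U + 8) / Real.sqrt n ≤ δ := by
    rw [div_le_iff₀ hs]
    exact hδ
  have hc1 := hI.close.1.trans hδ'
  have hc2 := hI.close.2.trans hδ'
  unfold Phi
  rw [if_pos (thin_mono76 hT ht.1), if_pos (thin_mono76 hT ht.2)]
  have g1 := lip_sub76 hL hc1
  have hc2' : ‖fpath n (mir (join l (join γ r))).1 - (-cpath n c.1 c.2 ch)‖ ≤ δ := by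
    rwa [sub_neg_eq_add]
  have g2 := lip_sub76 hL hc2'
  linarith

private theorem ofReal_split76 (x a b d : ℝ) :
    ENNReal.ofReal x ≤ ENNReal.ofReal (x - a - b - d) + ENNReal.ofReal a + ENNReal.ofReal b +
      ENNReal.ofReal d := by
  have e : x = (((x - a - b - d) + a) + b) + d := by ring
  calc ENNReal.ofReal x = ENNReal.ofReal ((((x - a - b - d) + a) + b) + d) := by rw [← e]
    _ ≤ ENNReal.ofReal (((x - a - b - d) + a) + b) + ENNReal.ofReal d := ENNReal.ofReal_add_le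
    _ ≤ ENNReal.ofReal ((x - a - b - d) + a) + ENNReal.ofReal b + ENNReal.ofReal d := by
        gcongr
        exact ENNReal.ofReal_add_le
    _ ≤ ENNReal.ofReal (x - a - b - d) + ENNReal.ofReal a + ENNReal.ofReal b +
        ENNReal.ofReal d := by
        gcongr
        exact ENNReal.ofReal_add_le

private theorem sym_lip76 {G : C(TI, ℝ) → ℝ} {L : NNReal} (hL : LipschitzWith L G) :
    LipschitzWith L (fun f => (G f + G (-f)) / 2) := by
  refine LipschitzWith.of_dist_le_mul fun f g => ?_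
  have h1 := hL.dist_le_mul f g
  have h2 := hL.dist_le_mul (-f) (-g)
  rw [dist_neg_neg, Real.dist_eq] at h2
  rw [Real.dist_eq] at h1 ⊢
  have e : (G f + G (-f)) / 2 - (G g + G (-g)) / 2 =
      (G f - G g) / 2 + (G (-f) - G (-g)) / 2 := by ring
  rw [e]
  refine (abs_add_le _ _).trans ?_
  rw [abs_div, abs_div, abs_of_pos (by norm_num : (0 : ℝ) < 2)]
  linarith

theorem mid {q ρ : ℝ} (hq : 1 ≤ q) (hρ : 0 < ρ) (hE : ExpW q ρ) :
    ∃ (P : Measure C(TI, ℝ)) (κ : ℝ), IsExc P ∧ 0 < κ ∧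
      ∀ G : C(TI, ℝ) → ℝ, (∃ L, LipschitzWith L G) → (∀ f, 0 ≤ G f ∧ G f ≤ 1) →
        ∀ (U : ℕ) (ε η : ℝ), 0 < ε → 0 < η → ∃ n₀ : ℕ, ∀ n, n₀ ≤ n → ∀ (c c' : ℤ × ℤ) (l r : Gr),
          l ∈ Lf (Dn n) (0, 0) c → r ∈ Rt (Dn n) c' (Rn n) → c.1 ≤ U → 2 * (n : ℤ) + 1 - U ≤ c'.1 →
          1 ≤ c.2 → c.2 ≤ U → 1 ≤ c'.2 → c'.2 ≤ U →
          (∫ f, (G (κ • f) + G (-(κ • f))) ∂P - η) * ∑ γ ∈ DmN n c c', W1 q ρ γ ≤
            ∑ γ ∈ DmN n c c', W1 q ρ γ *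
              (Phi G ε n (join l (join γ r)) + Phi G ε n (mir (join l (join γ r)))) := by
  classical
  obtain ⟨Fk, F, K, hR, hK, hOk⟩ := ren_ker hq hρ hE
  obtain ⟨P, κ, hP, hκ, w1, w2⟩ := walk_main F K hOk
  refine ⟨P, κ, hP, hκ, ?_⟩
  intro G hLip hG U ε η hε hη
  obtain ⟨L, hL⟩ := hLip
  have : IsProbabilityMeasure P := hP.1
  obtain ⟨A, hA⟩ := tail76 P κ (η := η / 8) (by positivity)
  have hL0 : (0 : ℝ) ≤ L := L.coe_nonneg
  obtain ⟨θ, hθ0, hθ1, hθε, hθη⟩ : ∃ θ : ℝ, 0 < θ ∧ θ ≤ 1 ∧ 2 * θ ≤ ε ∧ 2 * L * θ ≤ η / 4 := by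
    refine ⟨min 1 (min (ε / 2) (η / (8 * (L + 1)))), ?_, min_le_left _ _, ?_, ?_⟩
    · exact lt_min one_pos (lt_min (by positivity) (by positivity))
    · have h1 : min 1 (min (ε / 2) (η / (8 * (L + 1)))) ≤ ε / 2 :=
        (min_le_right _ _).trans (min_le_left _ _)
      linarith
    · have h1 : min 1 (min (ε / 2) (η / (8 * (L + 1)))) ≤ η / (8 * (L + 1)) :=
        (min_le_right _ _).trans (min_le_right _ _)
      have h2 : 2 * (L : ℝ) * min 1 (min (ε / 2) (η / (8 * (L + 1)))) ≤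
          2 * L * (η / (8 * (L + 1))) := mul_le_mul_of_nonneg_left h1 (by positivity)
      have h3 : 2 * (L : ℝ) * (η / (8 * (L + 1))) = η / 4 * (L / (L + 1)) := by
        field_simp
        ring
      have h4 : (L : ℝ) / (L + 1) ≤ 1 := by
        rw [div_le_one (by positivity)]
        linarith
      have h5 : η / 4 * ((L : ℝ) / (L + 1)) ≤ η / 4 * 1 :=
        mul_le_mul_of_nonneg_left h4 (by positivity)
      linarith
  obtain ⟨n1, hn1⟩ := large76 U A θ hθ0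
  obtain ⟨n2, hn2⟩ := w1 (fun f => (G f + G (-f)) / 2) ⟨L, sym_lip76 hL⟩
    (fun f => by
      have h1 := hG f
      have h2 := hG (-f)
      exact ⟨by linarith, by linarith⟩) U (η / 24) (by positivity)
  obtain ⟨n3, hn3⟩ := w1 (bb76 A) ⟨1, bb_lip76 A⟩
    (fun f => ⟨bb_nonneg76 A f, bb_le_one76 A f⟩) U (η / 24) (by positivity)
  obtain ⟨n4, hn4⟩ := w2 U (η / 24) (by positivity)
  refine ⟨n1 + n2 + n3 + n4 + U + 1, fun n hn c c' l r hl hr hcU hcU' hc2 hc2U hc'2 hc'2U => ?_⟩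
  have m1 := Pool.Helper83.OZ.mem_Lf.1 hl
  have m2 := Pool.Helper83.OZ.mem_Rt.1 hr
  have hcD := m1.1 m1.2.2.2.1
  have hcD' := m2.1 m2.2.2.1
  unfold Dn at hcD hcD'
  rw [Finset.mem_product, Finset.mem_Icc, Finset.mem_Icc] at hcD hcD'
  obtain ⟨mm, hmm⟩ : ∃ mm : ℕ, c'.1 = c.1 + mm := ⟨(c'.1 - c.1).toNat, by omega⟩
  have hu : |(mm : ℤ) + c.1 - 2 * n| ≤ U := by
    rw [abs_le]
    constructor <;> omega
  have q2 := hn2 n (by omega) c.1 c.2 c'.2 mm hcD.1.1 hcU hu hc2 hc2U hc'2 hc'2U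
  have q3 := hn3 n (by omega) c.1 c.2 c'.2 mm hcD.1.1 hcU hu hc2 hc2U hc'2 hc'2U
  obtain ⟨q4, hfin⟩ := hn4 n (by omega) c.1 c.2 c'.2 mm hcD.1.1 hcU hu hc2 hc2U hc'2 hc'2U
  obtain ⟨hδ, hAn⟩ := hn1 n (by omega)
  have hone := csum_one (K := K) mm c.2 c'.2
  have hch := chain_eq hR hK hc2 hmm
  obtain ⟨g, hg⟩ : ∃ g, g = Pool.Agent.Helper18.WK.G K mm c.2 c'.2 := ⟨_, rfl⟩
  rw [← hg] at q2 q3 q4 hfin hone hch
  -- the chain functional
  obtain ⟨lo, hlo⟩ : ∃ lo : List (ℕ × ℤ) → ℝ,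
      lo = fun ch => if ∃ p ∈ ch, (n : ℝ) < (p.1 : ℝ) ^ 4 then 1 else 0 := ⟨_, rfl⟩
  obtain ⟨ψ, hψ⟩ : ∃ ψ : List (ℕ × ℤ) → ℝ≥0∞, ψ = fun ch =>
      ENNReal.ofReal (G (cpath n c.1 c.2 ch) + G (-cpath n c.1 c.2 ch) - 2 * L * θ -
        2 * bb76 A (cpath n c.1 c.2 ch) - 2 * lo ch) := ⟨_, rfl⟩
  have hcl := chain_le (ψ := ψ) (Φ := fun γ => if γ.1 ⊆ Dn n then
      Phi G ε n (join l (join γ r)) + Phi G ε n (mir (join l (join γ r))) else 0) hR hK hc2 hmm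
    (fun γ => by
      have hPhi : ∀ γ, 0 ≤ Phi G ε n γ := by
        intro γ
        unfold Phi
        split_ifs
        · exact (hG _).1
        · exact le_rfl
      split_ifs
      · exact add_nonneg (hPhi _) (hPhi _)
      · exact le_rfl)
    (fun γ hγ ch h1 h2 h3 h4 => by
      rw [hψ, hlo]
      exact chain_bound76 hL hG (by omega) hl hr hcU hcU' hγ h1 (by rw [h2]; exact hmm) h3 h4 hδ
        hθ0.le hθ1 hθε hAn)
  obtain ⟨T, hT⟩ : ∃ T : ℝ, T = Real.exp (tau q ρ * mm) := ⟨_, rfl⟩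
  have hT0 : 0 < T := hT ▸ Real.exp_pos _
  rw [← hT] at hcl hch
  have hW := hR.W_nonneg
  have hsum : ∑ γ ∈ DmU c c', W1 q ρ γ * (if γ.1 ⊆ Dn n then
      Phi G ε n (join l (join γ r)) + Phi G ε n (mir (join l (join γ r))) else 0) =
      ∑ γ ∈ DmN n c c', W1 q ρ γ *
        (Phi G ε n (join l (join γ r)) + Phi G ε n (mir (join l (join γ r)))) := by
    unfold DmN
    rw [Finset.sum_filter]
    refine Finset.sum_congr rfl fun γ _ => ?_
    split_ifs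
    · rfl
    · rw [mul_zero]
  have hPhi : ∀ γ, 0 ≤ Phi G ε n γ := by
    intro γ
    unfold Phi
    split_ifs
    · exact (hG _).1
    · exact le_rfl
  obtain ⟨R, hRd⟩ : ∃ R : ℝ, R = ∑ γ ∈ DmN n c c', W1 q ρ γ *
        (Phi G ε n (join l (join γ r)) + Phi G ε n (mir (join l (join γ r)))) := ⟨_, rfl⟩
  have hR0 : 0 ≤ R := by
    rw [hRd]
    exact Finset.sum_nonneg fun γ _ => mul_nonneg (hW γ) (add_nonneg (hPhi _) (hPhi _))
  obtain ⟨V, hV⟩ : ∃ V : ℝ, V = ∑ γ ∈ DmU c c', W1 q ρ γ := ⟨_, rfl⟩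
  have hV0 : 0 ≤ V := by
    rw [hV]
    exact Finset.sum_nonneg fun γ _ => hW γ
  obtain ⟨V', hV'⟩ : ∃ V' : ℝ, V' = ∑ γ ∈ DmN n c c', W1 q ρ γ := ⟨_, rfl⟩
  have hVV : V' ≤ V := by
    rw [hV, hV']
    refine Finset.sum_le_sum_of_subset_of_nonneg ?_ fun γ _ _ => hW γ
    unfold DmN
    exact Finset.filter_subset _ _
  rw [hsum, ← hRd] at hcl
  rw [← hV] at hch
  have hV'0 : 0 ≤ V' := by
    rw [hV']
    exact Finset.sum_nonneg fun γ _ => hW γ
  rw [← hRd, ← hV']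
  -- the inequality of the sums over the chains
  obtain ⟨a1, ha1⟩ : ∃ a1, a1 = csum K mm c.2 c'.2
    (fun ch => ENNReal.ofReal ((G (cpath n c.1 c.2 ch) + G (-cpath n c.1 c.2 ch)) / 2)) := ⟨_, rfl⟩
  obtain ⟨a2, ha2⟩ : ∃ a2, a2 = csum K mm c.2 c'.2
    (fun ch => ENNReal.ofReal (bb76 A (cpath n c.1 c.2 ch))) := ⟨_, rfl⟩
  obtain ⟨a3, ha3⟩ : ∃ a3, a3 = csum K mm c.2 c'.2
    (fun ch => if ∃ p ∈ ch, (n : ℝ) < (p.1 : ℝ) ^ 4 then (1 : ℝ≥0∞) else 0) := ⟨_, rfl⟩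
  have hmain : 2 * a1 ≤ ENNReal.ofReal (T * R) + ENNReal.ofReal (2 * L * θ) * g + 2 * a2 +
      2 * a3 := by
    calc 2 * a1 = csum K mm c.2 c'.2 (fun ch => 2 *
          ENNReal.ofReal ((G (cpath n c.1 c.2 ch) + G (-cpath n c.1 c.2 ch)) / 2)) := by
          rw [csum_mul, ha1]
      _ ≤ csum K mm c.2 c'.2 (fun ch => ψ ch + ENNReal.ofReal (2 * L * θ) * 1 +
          2 * ENNReal.ofReal (bb76 A (cpath n c.1 c.2 ch)) +
          2 * (if ∃ p ∈ ch, (n : ℝ) < (p.1 : ℝ) ^ 4 then (1 : ℝ≥0∞) else 0)) := by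
          refine csum_mono _ _ _ fun ch => ?_
          have e1 : (2 : ℝ≥0∞) *
              ENNReal.ofReal ((G (cpath n c.1 c.2 ch) + G (-cpath n c.1 c.2 ch)) / 2) =
              ENNReal.ofReal (G (cpath n c.1 c.2 ch) + G (-cpath n c.1 c.2 ch)) := by
            have : (2 : ℝ≥0∞) = ENNReal.ofReal 2 := by simp
            rw [this, ← ENNReal.ofReal_mul (by norm_num)]
            congr 1
            ring
          have e2 : (2 : ℝ≥0∞) * ENNReal.ofReal (bb76 A (cpath n c.1 c.2 ch)) =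
              ENNReal.ofReal (2 * bb76 A (cpath n c.1 c.2 ch)) := by
            have : (2 : ℝ≥0∞) = ENNReal.ofReal 2 := by simp
            rw [this, ← ENNReal.ofReal_mul (by norm_num)]
          have e3 : (2 : ℝ≥0∞) *
              (if ∃ p ∈ ch, (n : ℝ) < (p.1 : ℝ) ^ 4 then (1 : ℝ≥0∞) else 0) =
              ENNReal.ofReal (2 * lo ch) := by
            rw [hlo]
            beta_reduce
            split_ifs
            · simp
            · simp
          rw [e1, e2, e3, hψ, mul_one]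
          exact ofReal_split76 _ _ _ _
      _ = csum K mm c.2 c'.2 ψ + ENNReal.ofReal (2 * L * θ) * g + 2 * a2 + 2 * a3 := by
          rw [csum_add, csum_add, csum_add, csum_mul, csum_mul, csum_mul, hone, ha2, ha3]
      _ ≤ ENNReal.ofReal (T * R) + ENNReal.ofReal (2 * L * θ) * g + 2 * a2 + 2 * a3 := by
          gcongr
  have ha1f : a1 ≠ ∞ := by
    refine ne_top_of_le_ne_top hfin ?_
    rw [← hone, ha1]
    refine csum_mono _ _ _ fun ch => ?_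
    rw [ENNReal.ofReal_le_one]
    have h1 := hG (cpath n c.1 c.2 ch)
    have h2 := hG (-cpath n c.1 c.2 ch)
    linarith
  have ha2f : a2 ≠ ∞ := by
    refine ne_top_of_le_ne_top hfin ?_
    rw [← hone, ha2]
    refine csum_mono _ _ _ fun ch => ?_
    rw [ENNReal.ofReal_le_one]
    exact bb_le_one76 A _
  have ha3f : a3 ≠ ∞ := by
    rw [ha3]
    refine ne_top_of_le_ne_top (ENNReal.mul_ne_top ENNReal.ofReal_ne_top hfin) q4
  have hmr : 2 * a1.toReal ≤ T * R + 2 * L * θ * g.toReal + 2 * a2.toReal + 2 * a3.toReal := by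
    have f1 : ENNReal.ofReal (T * R) ≠ ∞ := ENNReal.ofReal_ne_top
    have f2 : ENNReal.ofReal (2 * L * θ) * g ≠ ∞ := ENNReal.mul_ne_top ENNReal.ofReal_ne_top hfin
    have f3 : 2 * a2 ≠ ∞ := ENNReal.mul_ne_top (by simp) ha2f
    have f4 : 2 * a3 ≠ ∞ := ENNReal.mul_ne_top (by simp) ha3f
    have f5 := ENNReal.toReal_mono (ENNReal.add_ne_top.2 ⟨ENNReal.add_ne_top.2
      ⟨ENNReal.add_ne_top.2 ⟨f1, f2⟩, f3⟩, f4⟩) hmain
    rw [ENNReal.toReal_add (ENNReal.add_ne_top.2 ⟨ENNReal.add_ne_top.2 ⟨f1, f2⟩, f3⟩) f4,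
      ENNReal.toReal_add (ENNReal.add_ne_top.2 ⟨f1, f2⟩) f3, ENNReal.toReal_add f1 f2,
      ENNReal.toReal_mul, ENNReal.toReal_mul, ENNReal.toReal_mul, ENNReal.toReal_mul,
      ENNReal.toReal_ofReal (mul_nonneg hT0.le hR0),
      ENNReal.toReal_ofReal (by positivity)] at f5
    simpa using f5
  have hgr : g.toReal = T * V := by
    rw [hch, ENNReal.toReal_ofReal (mul_nonneg hT0.le hV0)]
  have hS0 : 0 ≤ g.toReal := ENNReal.toReal_nonneg
  have q4r : a3.toReal ≤ η / 24 * g.toReal := by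
    have h1 := ENNReal.toReal_mono (ENNReal.mul_ne_top ENNReal.ofReal_ne_top hfin) q4
    rw [ENNReal.toReal_mul, ENNReal.toReal_ofReal (by positivity)] at h1
    rw [ha3]
    exact h1
  obtain ⟨J, hJ⟩ : ∃ J : ℝ, J = ∫ f, (G (κ • f) + G (-(κ • f))) ∂P := ⟨_, rfl⟩
  have hJ2 : ∫ f, (G (κ • f) + G (-(κ • f))) / 2 ∂P = J / 2 := by
    rw [hJ, integral_div]
  rw [hJ2, ← ha1] at q2
  rw [← ha2] at q3
  have r2 := (abs_le.1 q2).1
  have r3 := (abs_le.1 q3).2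
  have r3' : g.toReal * ∫ f, bb76 A (κ • f) ∂P ≤ g.toReal * (η / 8) :=
    mul_le_mul_of_nonneg_left hA hS0
  have r5 : 2 * L * θ * g.toReal ≤ η / 4 * g.toReal := mul_le_mul_of_nonneg_right hθη hS0
  rw [← hJ]
  have key : (J - η) * g.toReal ≤ T * R := by
    nlinarith
  rcases le_or_gt 0 (J - η) with h0 | h0
  · have h1 : T * ((J - η) * V') ≤ T * R := by
      calc T * ((J - η) * V') = (J - η) * (T * V') := by ring
        _ ≤ (J - η) * (T * V) :=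
            mul_le_mul_of_nonneg_left (mul_le_mul_of_nonneg_left hVV hT0.le) h0
        _ = (J - η) * g.toReal := by rw [hgr]
        _ ≤ T * R := key
    exact le_of_mul_le_mul_left h1 hT0
  · exact (mul_nonpos_of_nonpos_of_nonneg h0.le hV'0).trans hR0

end Pool.Agent.Helper49.OZ
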