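import Mathlib
import Pool.Agent.Helper49.OZ.Mid

/-!
Block AS-9: the limit theorem for the cluster of the left end of the defect row, given that it contains the right
end.

Proof. `r = dfc ρ ρ'`, `Φ = Phi G ε n`. By `ex_clu_sum` (Helper83/OZ/Sum) the right-hand side is
`∑ γ ∈ Cl (Dn n) (0,0) (Rn n), WD γ * Φ γ` and the probability is `∑ γ ∈ Cl .., WD γ` (`G_sum` / `pr_clu_sum`). Take `I, a` from `sub_measure`
(with `ε / 4`), `U` too, and `n₀` from `mid` (with `η = ε / 2`). By `SubM.le` and `mid` the right-hand side is at least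
`∑ i ∈ I, a i * (J - η) * ∑ γ ∈ DmN .., W1 γ`, `J = ∫ (G (κ f) + G (-κ f)) dP ∈ [0, 2]`; it is also `≥ 0`. If `J - η ≥ 0` this is at least
`(J - η) (1 - ε / 4) / 2 * pr` by `SubM.mass`, and `(J - η) (1 - ε / 4) / 2 ≥ J / 2 - ε`. If `J - η < 0` the claim is trivial. (`0 ≤ c.1`
since `c` is in `Dn n`.)
-/

open MeasureTheory

namespace Pool.Agent.Helper49.OZ

open Pool.Helper49.FK
open Pool.Agent.Helper49.QP (Dn Rn)
open Pool.Agent.Helper49.FL (TI IsExc)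
open Pool.Helper83.OZ (Cl WD W1)

private theorem Phi_nonneg31 {G : C(TI, ℝ) → ℝ} (hG : ∀ f, 0 ≤ G f ∧ G f ≤ 1) (ε : ℝ) (n : ℕ)
    (γ : Pool.Helper83.OZ.Gr) : 0 ≤ Phi G ε n γ := by
  unfold Phi
  split_ifs
  · exact (hG _).1
  · exact le_rfl

private theorem J_bounds31 {P : Measure C(TI, ℝ)} [IsProbabilityMeasure P] {G : C(TI, ℝ) → ℝ} (κ : ℝ)
    (hG : ∀ f, 0 ≤ G f ∧ G f ≤ 1) : 0 ≤ ∫ f, (G (κ • f) + G (-(κ • f))) ∂P ∧
      ∫ f, (G (κ • f) + G (-(κ • f))) ∂P ≤ 2 := by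
  have h0 : ∀ f : C(TI, ℝ), 0 ≤ G (κ • f) + G (-(κ • f)) := fun f => add_nonneg (hG _).1 (hG _).1
  refine ⟨integral_nonneg h0, ?_⟩
  have h1 : ∫ f, (G (κ • f) + G (-(κ • f))) ∂P ≤ ∫ _f : C(TI, ℝ), (2 : ℝ) ∂P := by
    refine integral_mono_of_nonneg (Filter.Eventually.of_forall h0) (integrable_const 2)
      (Filter.Eventually.of_forall fun f => ?_)
    have := (hG (κ • f)).2
    have := (hG (-(κ • f))).2
    change G (κ • f) + G (-(κ • f)) ≤ 2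
    linarith
  refine h1.trans (le_of_eq ?_)
  simp

open Classical in
theorem fk_limit {q ρ : ℝ} (hq : 1 ≤ q) (hρ : 0 < ρ) (hE : ExpW q ρ) :
    ∃ (P : Measure C(TI, ℝ)) (κ : ℝ), IsExc P ∧ 0 < κ ∧ ∀ ρ' : ℝ, 0 < ρ' → ρ' < ρ →
      ∀ G : C(TI, ℝ) → ℝ, (∃ L, LipschitzWith L G) → (∀ f, 0 ≤ G f ∧ G f ≤ 1) →
        ∀ ε : ℝ, 0 < ε → ∃ n₀ : ℕ, ∀ n, n₀ ≤ n →
          (∫ f, (G (κ • f) + G (-(κ • f))) / 2 ∂P - ε) *
              pr q (dfc ρ ρ') (Dn n) (fun ω => Conn ω (0, 0) (Rn n)) ≤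
            ex q (dfc ρ ρ') (Dn n) (fun ω => if Conn ω (0, 0) (Rn n) then
              (if Thin (clu (Dn n) ω (0, 0)) (ε * Real.sqrt n) then
                G (fpath n (clu (Dn n) ω (0, 0))) else 0) else 0) := by
  obtain ⟨P, κ, hP, hκ, hmid⟩ := mid hq hρ hE
  refine ⟨P, κ, hP, hκ, fun ρ' h0 h1 G hL hG ε hε => ?_⟩
  have : IsProbabilityMeasure P := hP.1
  obtain ⟨U, n₁, hsub⟩ := sub_measure hq h0 h1 hE (ε := ε / 4) (by linarith)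
  obtain ⟨n₂, hm⟩ := hmid G hL hG U ε (ε / 2) hε (by linarith)
  refine ⟨max n₁ n₂, fun n hn => ?_⟩
  obtain ⟨I, a, hI⟩ := hsub n ((le_max_left _ _).trans hn)
  have hn2 : n₂ ≤ n := (le_max_right _ _).trans hn
  have hq0 : 0 < q := zero_lt_one.trans_le hq
  have hr : ∀ e, 0 ≤ dfc ρ ρ' e := by
    intro e
    unfold dfc
    split_ifs
    · exact h0.le
    · exact hρ.le
  have hu : ((0, 0) : ℤ × ℤ) ∈ Dn n := by
    unfold Dn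
    rw [Finset.mem_product, Finset.mem_Icc, Finset.mem_Icc]
    refine ⟨⟨le_rfl, ?_⟩, ?_, ?_⟩ <;> simp only [] <;> omega
  have e1 : pr q (dfc ρ ρ') (Dn n) (fun ω => Conn ω (0, 0) (Rn n)) =
      ∑ γ ∈ Cl (Dn n) (0, 0) (Rn n), WD q (dfc ρ ρ') (Dn n) γ :=
    Pool.Helper83.OZ.G_sum hq0 hr hu
  have e2 : ex q (dfc ρ ρ') (Dn n) (fun ω => if Conn ω (0, 0) (Rn n) then
      (if Thin (clu (Dn n) ω (0, 0)) (ε * Real.sqrt n) then
        G (fpath n (clu (Dn n) ω (0, 0))) else 0) else 0) =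
      ∑ γ ∈ Cl (Dn n) (0, 0) (Rn n), WD q (dfc ρ ρ') (Dn n) γ * Phi G ε n γ :=
    Pool.Helper83.OZ.ex_clu_sum hq0 hr hu (Phi G ε n)
  rw [e1, e2]
  obtain ⟨J, hJ⟩ : ∃ J : ℝ, J = ∫ f, (G (κ • f) + G (-(κ • f))) ∂P := ⟨_, rfl⟩
  have hJ2 : ∫ f, (G (κ • f) + G (-(κ • f))) / 2 ∂P = J / 2 := by
    rw [hJ, integral_div]
  rw [hJ2]
  obtain ⟨hJ0, hJ1⟩ := J_bounds31 (P := P) κ hG
  rw [← hJ] at hJ0 hJ1
  obtain ⟨S, hS⟩ : ∃ S : ℝ, S = ∑ γ ∈ Cl (Dn n) (0, 0) (Rn n), WD q (dfc ρ ρ') (Dn n) γ := ⟨_, rfl⟩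
  have hmass := hI.mass
  rw [← hS] at hmass ⊢
  have hS0 : 0 ≤ S := by
    rw [hS]
    exact Finset.sum_nonneg fun γ _ => Pool.Helper83.OZ.WD_nonneg hq0 hr γ
  obtain ⟨T, hT⟩ : ∃ T : ℝ, T = ∑ i ∈ I, a i * ∑ γ ∈ DmN n i.1.2 i.2.2, W1 q ρ γ := ⟨_, rfl⟩
  rw [← hT] at hmass
  have hR0 : 0 ≤ ∑ γ ∈ Cl (Dn n) (0, 0) (Rn n), WD q (dfc ρ ρ') (Dn n) γ * Phi G ε n γ :=
    Finset.sum_nonneg fun γ _ => mul_nonneg (Pool.Helper83.OZ.WD_nonneg hq0 hr γ) (Phi_nonneg31 hG ε n γ)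
  have hmain : (J - ε / 2) * T ≤
      ∑ γ ∈ Cl (Dn n) (0, 0) (Rn n), WD q (dfc ρ ρ') (Dn n) γ * Phi G ε n γ := by
    refine le_trans ?_ (hI.le (Phi G ε n) (Phi_nonneg31 hG ε n))
    rw [hT, Finset.mul_sum]
    refine Finset.sum_le_sum fun i hi => ?_
    have h2 := hm n hn2 i.1.2 i.2.2 i.1.1 i.2.1 (hI.left i hi) (hI.right i hi) (hI.left_col i hi)
      (hI.right_col i hi) (hI.left_row i hi).1 (hI.left_row i hi).2 (hI.right_row i hi).1 (hI.right_row i hi).2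
    rw [← hJ] at h2
    have h3 := mul_le_mul_of_nonneg_left h2 (hI.a_nonneg i hi)
    calc (J - ε / 2) * (a i * ∑ γ ∈ DmN n i.1.2 i.2.2, W1 q ρ γ) =
          a i * ((J - ε / 2) * ∑ γ ∈ DmN n i.1.2 i.2.2, W1 q ρ γ) := by ring
      _ ≤ _ := h3
  rcases le_or_gt 0 (J - ε / 2) with hc | hc
  · refine le_trans ?_ hmain
    have h4 : (J - ε / 2) * ((1 - ε / 4) * S) ≤ (J - ε / 2) * (2 * T) := mul_le_mul_of_nonneg_left hmass hc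
    have h5 : (J / 2 - ε) * S ≤ (J - ε / 2) * (1 - ε / 4) / 2 * S := by
      refine mul_le_mul_of_nonneg_right ?_ hS0
      nlinarith
    linarith
  · refine le_trans ?_ hR0
    exact mul_nonpos_of_nonpos_of_nonneg (by linarith) hS0

end Pool.Agent.Helper49.OZ
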