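import Mathlib
import Pool.Agent.Helper49.OZ.ChSum
import Pool.Agent.Helper49.QP.Dual
import Pool.Agent.Helper83.OZ.Sum
import Pool.Agent.Helper49.FK.Exp

/-!
The definitions for the final statement of part L5: the sub-measure. `mir` is the reflection in the row `0`.
-/

namespace Pool.Agent.Helper49.OZ

open Pool.Helper49.FK
open Pool.Helper83.OZ (Gr Dm Cl Lf Rt low upp join WD W1)
open Pool.Agent.Helper49.QP (Dn Rn)

/-- The reflection of an edge in the row `0`. -/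
def mirE (e : Edge) : Edge := if e.2 = true then ((e.1.1, -e.1.2), true) else ((e.1.1, -e.1.2 - 1), false)

/-- The reflection of a graph in the row `0`. -/
noncomputable def mir (γ : Gr) : Gr := (γ.1.image fun y => (y.1, -y.2), γ.2.image mirE)

open Classical in
/-- The diamond graphs in the dual rectangle with all rows `≥ 1`. -/
noncomputable def DmN (n : ℕ) (a b : ℤ × ℤ) : Finset Gr := (DmU a b).filter fun γ => γ.1 ⊆ Dn n

/-- A sub-measure of the law of the cluster of `(0, 0)` in the dual rectangle: the outer parts are the graphs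
`i.1.1` (left, ends at the cone point `i.1.2`) and `i.2.1` (right, starts at the cone point `i.2.2`), with the weight
`a i`; in between any diamond graph in the rows `≥ 1` with its homogeneous infinite-volume weight; and the
mirror images. -/
structure SubM (q ρ ρ' ε : ℝ) (U n : ℕ) (I : Finset ((Gr × (ℤ × ℤ)) × (Gr × (ℤ × ℤ))))
    (a : (Gr × (ℤ × ℤ)) × (Gr × (ℤ × ℤ)) → ℝ) : Prop where
  a_nonneg : ∀ i ∈ I, 0 ≤ a i
  left : ∀ i ∈ I, i.1.1 ∈ Lf (Dn n) (0, 0) i.1.2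
  right : ∀ i ∈ I, i.2.1 ∈ Rt (Dn n) i.2.2 (Rn n)
  left_col : ∀ i ∈ I, i.1.2.1 ≤ U
  right_col : ∀ i ∈ I, 2 * (n : ℤ) + 1 - U ≤ i.2.2.1
  left_row : ∀ i ∈ I, 1 ≤ i.1.2.2 ∧ i.1.2.2 ≤ U
  right_row : ∀ i ∈ I, 1 ≤ i.2.2.2 ∧ i.2.2.2 ≤ U
  le : ∀ Φ : Gr → ℝ, (∀ γ, 0 ≤ Φ γ) →
    ∑ i ∈ I, a i * ∑ γ ∈ DmN n i.1.2 i.2.2, W1 q ρ γ *
        (Φ (join i.1.1 (join γ i.2.1)) + Φ (mir (join i.1.1 (join γ i.2.1)))) ≤
      ∑ γ ∈ Cl (Dn n) (0, 0) (Rn n), WD q (dfc ρ ρ') (Dn n) γ * Φ γ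
  mass : (1 - ε) * ∑ γ ∈ Cl (Dn n) (0, 0) (Rn n), WD q (dfc ρ ρ') (Dn n) γ ≤
    2 * ∑ i ∈ I, a i * ∑ γ ∈ DmN n i.1.2 i.2.2, W1 q ρ γ

end Pool.Agent.Helper49.OZ
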